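import Mathlib

/-!
A perfect set theorem for images: a Borel map with uncountable range on a Borel set is continuous
and injective on a copy of Cantor space.
-/

set_option autoImplicit false

namespace Pool.Agent.Mart

open Set TopologicalSpace Filter Topology

section Split

variable {Z Y : Type} [MetricSpace Z] [SecondCountableTopology Z] [TopologicalSpace Y] [T2Space Y]

/-- splitting an open set with uncountable image -/
theorem split_open {φ : Z → Y} (hφ : Continuous φ) {U : Set Z} (hU : IsOpen U)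
    (hunc : ¬ (φ '' U).Countable) {ε : ENNReal} (hε : 0 < ε) :
    ∃ V : Bool → Set Z, (∀ b, IsOpen (V b) ∧ ¬ (φ '' (V b)).Countable ∧ closure (V b) ⊆ U ∧
      Metric.ediam (V b) ≤ ε) ∧ Disjoint (φ '' (V false)) (φ '' (V true)) := by
  -- the union of the small basic open sets
  let S : Set (Set Z) := {B ∈ countableBasis Z | (φ '' B).Countable}
  have hS : S.Countable := (countable_countableBasis Z).mono fun B hB => hB.1
  have hN : (φ '' (⋃₀ S)).Countable := by
    rw [sUnion_eq_biUnion, image_iUnion₂]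
    exact hS.biUnion fun B hB => hB.2
  have hU' : ¬ (φ '' (U \ ⋃₀ S)).Countable := by
    intro h
    apply hunc
    refine (h.union hN).mono ?_
    rintro y ⟨z, hz, rfl⟩
    by_cases hzN : z ∈ ⋃₀ S
    · exact Or.inr ⟨z, hzN, rfl⟩
    · exact Or.inl ⟨z, ⟨hz, hzN⟩, rfl⟩
  have hbig : ∀ z ∉ ⋃₀ S, ∀ V : Set Z, IsOpen V → z ∈ V → ¬ (φ '' V).Countable := by
    intro z hz V hV hzV hcount
    obtain ⟨B, hB, hzB, hBV⟩ := (isBasis_countableBasis Z).exists_subset_of_mem_open hzV hV
    exact hz ⟨B, ⟨hB, hcount.mono (image_mono hBV)⟩, hzB⟩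
  have hnt : ¬ (φ '' (U \ ⋃₀ S)).Subsingleton := fun h => hU' h.finite.countable
  obtain ⟨y0, hy0, y1, hy1, hne⟩ := not_subsingleton_iff.1 hnt
  obtain ⟨z0, hz0, rfl⟩ := hy0
  obtain ⟨z1, hz1, rfl⟩ := hy1
  obtain ⟨W0, W1, hW0, hW1, h0, h1, hdisj⟩ := t2_separation hne
  have hball : ∀ z : Z, z ∉ ⋃₀ S → ∀ W : Set Z, IsOpen W → z ∈ W → ∃ V : Set Z, IsOpen V ∧
      ¬ (φ '' V).Countable ∧ closure V ⊆ W ∧ Metric.ediam V ≤ ε := by
    intro z hz W hW hzW
    have hW' : IsOpen (W ∩ Metric.eball z (ε / 2)) := hW.inter Metric.isOpen_eball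
    have hz' : z ∈ W ∩ Metric.eball z (ε / 2) :=
      ⟨hzW, Metric.mem_eball_self (ENNReal.div_pos hε.ne' (by norm_num))⟩
    obtain ⟨V, hV1, hV2, hV3⟩ := exists_mem_nhds_isClosed_subset (hW'.mem_nhds hz')
    refine ⟨interior V, isOpen_interior, hbig z hz _ isOpen_interior (mem_interior_iff_mem_nhds.2 hV1),
      ?_, ?_⟩
    · refine (closure_mono interior_subset).trans ?_
      rw [hV2.closure_eq]
      exact hV3.trans inter_subset_left
    · refine (Metric.ediam_mono ((interior_subset.trans hV3).trans inter_subset_right)).trans ?_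
      refine Metric.ediam_eball_le.trans ?_
      rw [ENNReal.mul_div_cancel (by norm_num) (by norm_num)]
  obtain ⟨V0, a0, b0, c0, d0⟩ := hball z0 hz0.2 (U ∩ φ ⁻¹' W0) (hU.inter (hW0.preimage hφ))
    ⟨hz0.1, h0⟩
  obtain ⟨V1, a1, b1, c1, d1⟩ := hball z1 hz1.2 (U ∩ φ ⁻¹' W1) (hU.inter (hW1.preimage hφ))
    ⟨hz1.1, h1⟩
  refine ⟨fun b => if b = true then V1 else V0, fun b => ?_, ?_⟩
  · cases b with
    | false => exact ⟨a0, b0, c0.trans inter_subset_left, d0⟩
    | true => exact ⟨a1, b1, c1.trans inter_subset_left, d1⟩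
  · show Disjoint (φ '' V0) (φ '' V1)
    refine hdisj.mono ?_ ?_
    · rintro _ ⟨z, hz, rfl⟩
      exact (c0 (subset_closure hz)).2
    · rintro _ ⟨z, hz, rfl⟩
      exact (c1 (subset_closure hz)).2

open CantorScheme PiNat

theorem exists_cantor_metric [CompleteSpace Z] {φ : Z → Y} (hφ : Continuous φ) {U : Set Z}
    (hU : IsOpen U) (hunc : ¬ (φ '' U).Countable) :
    ∃ e : (ℕ → Bool) → Z, Continuous e ∧ (∀ α, e α ∈ U) ∧ Function.Injective fun α => φ (e α) := by
  let P := {E : Set Z // IsOpen E ∧ ¬ (φ '' E).Countable}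
  have hsp : ∀ (E : P) (n : ℕ), ∃ V : Bool → P, (∀ b, closure (V b).1 ⊆ E.1 ∧
      Metric.ediam (V b).1 ≤ (2⁻¹ : ENNReal) ^ n) ∧
      Disjoint (φ '' (V false).1) (φ '' (V true).1) := by
    intro E n
    obtain ⟨V, hV, hd⟩ := split_open hφ E.2.1 E.2.2 (ε := (2⁻¹ : ENNReal) ^ n)
      (ENNReal.pow_pos (by norm_num) n)
    exact ⟨fun b => ⟨V b, (hV b).1, (hV b).2.1⟩, fun b => ⟨(hV b).2.2.1, (hV b).2.2.2⟩, hd⟩
  choose C hC hCd using hsp
  let DP : List Bool → P := fun l =>
    List.rec (motive := fun _ => P) ⟨U, hU, hunc⟩ (fun a l ih => C ih l.length a) l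
  have hDP : ∀ a l, DP (a :: l) = C (DP l) l.length a := fun _ _ => rfl
  let D : List Bool → Set Z := fun l => (DP l).1
  have hne : ∀ l, (D l).Nonempty := by
    intro l
    rw [nonempty_iff_ne_empty]
    intro h
    apply (DP l).2.2
    have h' : (DP l).1 = ∅ := h
    rw [h', image_empty]
    exact countable_empty
  have hanti : ClosureAntitone D := by
    intro l a
    show closure (DP (a :: l)).1 ⊆ (DP l).1
    rw [hDP]
    exact (hC _ _ a).1
  have hdiam : VanishingDiam D := by
    intro x
    rw [← tendsto_add_atTop_iff_nat 1]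
    have h0 : Tendsto (fun n : ℕ => (2⁻¹ : ENNReal) ^ n) atTop (𝓝 0) :=
      ENNReal.tendsto_pow_atTop_nhds_zero_of_lt_one (by norm_num)
    refine tendsto_of_tendsto_of_tendsto_of_le_of_le tendsto_const_nhds h0
      (fun n => bot_le) (fun n => ?_)
    show Metric.ediam (DP (res x (n + 1))).1 ≤ _
    rw [res_succ, hDP, res_length]
    exact (hC _ _ _).2
  have hdom : ∀ {x : ℕ → Bool}, x ∈ (inducedMap D).1 := fun {x} => by
    rw [hanti.map_of_vanishingDiam hdiam hne]
    exact mem_univ _
  have hmem : ∀ (x : ℕ → Bool) (n : ℕ), (inducedMap D).2 ⟨x, hdom⟩ ∈ D (res x n) :=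
    fun x n => map_mem ⟨x, hdom⟩ n
  refine ⟨fun x => (inducedMap D).2 ⟨x, hdom⟩, ?_, ?_, ?_⟩
  · exact hdiam.map_continuous.comp (continuous_id.subtype_mk _)
  · intro x
    exact hmem x 0
  · intro x y hxy
    have hxy' : φ ((inducedMap D).2 ⟨x, hdom⟩) = φ ((inducedMap D).2 ⟨y, hdom⟩) := hxy
    apply res_injective
    funext n
    induction n with
    | zero => rfl
    | succ n ih =>
      rw [res_succ, res_succ, ih]
      congr 1
      by_contra hb
      have h1 : φ ((inducedMap D).2 ⟨x, hdom⟩) ∈ φ '' (C (DP (res x n)) n (x n)).1 := by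
        refine ⟨_, ?_, rfl⟩
        have h := hmem x (n + 1)
        rw [res_succ] at h
        have h' : (inducedMap D).2 ⟨x, hdom⟩ ∈ (DP (x n :: res x n)).1 := h
        rw [hDP, res_length] at h'
        exact h'
      have h2 : φ ((inducedMap D).2 ⟨y, hdom⟩) ∈ φ '' (C (DP (res x n)) n (y n)).1 := by
        refine ⟨_, ?_, rfl⟩
        have h := hmem y (n + 1)
        rw [res_succ] at h
        have h' : (inducedMap D).2 ⟨y, hdom⟩ ∈ (DP (y n :: res y n)).1 := h
        rw [hDP, res_length, ← ih] at h'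
        exact h'
      rw [← hxy'] at h2
      have h3 := disjoint_left.1 (hCd (DP (res x n)) n)
      cases hx : x n <;> cases hy : y n
      · exact hb (hx.trans hy.symm)
      · rw [hx] at h1
        rw [hy] at h2
        exact h3 h1 h2
      · rw [hx] at h1
        rw [hy] at h2
        exact h3 h2 h1
      · exact hb (hx.trans hy.symm)

end Split

theorem exists_cantor {Z Y : Type} [TopologicalSpace Z] [PolishSpace Z] [TopologicalSpace Y]
    [T2Space Y] {φ : Z → Y} (hφ : Continuous φ) {U : Set Z}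
    (hU : IsOpen U) (hunc : ¬ (φ '' U).Countable) :
    ∃ e : (ℕ → Bool) → Z, Continuous e ∧ (∀ α, e α ∈ U) ∧ Function.Injective fun α => φ (e α) := by
  let _i := TopologicalSpace.upgradeIsCompletelyMetrizable Z
  exact exists_cantor_metric hφ hU hunc

theorem perfect_aux {X Y1 Y2 : Type} [TopologicalSpace X] [PolishSpace X] [TopologicalSpace Y1]
    [T2Space Y1] [TopologicalSpace Y2] {φ : X → Y1} {h : X → Y2} {S : Set X} {dec : X → Bool}
    (hd : ∀ x, dec x = true ↔ x ∈ S) (hF : Continuous fun A => (φ A, h A, dec A))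
    (hunc : ¬ (φ '' S).Countable) :
    ∃ e : (ℕ → Bool) → X, Continuous e ∧ (∀ α, e α ∈ S) ∧
      Continuous (fun α => φ (e α)) ∧ Continuous (fun α => h (e α)) ∧
      Function.Injective fun α => φ (e α) := by
  have hc1 : Continuous φ := continuous_fst.comp hF
  have hc2 : Continuous h := (continuous_fst.comp continuous_snd).comp hF
  have hc3 : Continuous dec := (continuous_snd.comp continuous_snd).comp hF
  have hopen : IsOpen S := by
    have h1 : dec ⁻¹' {true} = S := by
      ext A
      simp [hd]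
    rw [← h1]
    exact (isOpen_discrete {true}).preimage hc3
  obtain ⟨e, he, heS, hinj⟩ := exists_cantor hc1 hopen hunc
  exact ⟨e, he, heS, hc1.comp he, hc2.comp he, hinj⟩

/-- a Borel map `φ` with uncountable range on a Borel set `S` of reals; `h` another Borel map -/
theorem exists_perfect {φ h : (ℕ → Bool) → (ℕ → Bool)} (hφ : Measurable φ) (hh : Measurable h)
    {S : Set (ℕ → Bool)} (hS : MeasurableSet S) (hunc : ¬ (φ '' S).Countable) :
    ∃ e : (ℕ → Bool) → (ℕ → Bool), Continuous e ∧ (∀ α, e α ∈ S) ∧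
      Continuous (fun α => φ (e α)) ∧ Continuous (fun α => h (e α)) ∧
      Function.Injective fun α => φ (e α) := by
  classical
  have hind : Measurable fun A : ℕ → Bool => decide (A ∈ S) := by
    refine measurable_to_bool ?_
    have : (fun A : ℕ → Bool => decide (A ∈ S)) ⁻¹' {true} = S := by
      ext A; simp
    rw [this]
    exact hS
  have hF : Measurable fun A => (φ A, h A, decide (A ∈ S)) := hφ.prodMk (hh.prodMk hind)
  have hP : PolishSpace (ℕ → Bool) :=
    { toSecondCountableTopology := inferInstance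
      toIsCompletelyMetrizableSpace := inferInstance }
  have hT : T2Space (ℕ → Bool) := inferInstance
  have key := @Measurable.exists_continuous _ _ _ hP _ _ _ _ _ _ _ hF
  obtain ⟨t', ht', hcont, hpol⟩ := key
  obtain ⟨e, he, heS, h1, h2, h3⟩ := @perfect_aux (ℕ → Bool) (ℕ → Bool) (ℕ → Bool) t' hpol
    Pi.topologicalSpace hT Pi.topologicalSpace φ h S (fun A => decide (A ∈ S))
    (fun x => decide_eq_true_iff) hcont hunc
  exact ⟨e, continuous_le_rng ht' he, heS, h1, h2, h3⟩

open MeasureTheory

/-- the same for a universally measurable map `h` -/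
theorem exists_perfect_ae {φ h : (ℕ → Bool) → (ℕ → Bool)} (hφ : Measurable φ)
    (hh : ∀ μ : Measure (ℕ → Bool), IsFiniteMeasure μ → AEMeasurable h μ)
    {S : Set (ℕ → Bool)} (hS : MeasurableSet S) (hunc : ¬ (φ '' S).Countable) :
    ∃ e : (ℕ → Bool) → (ℕ → Bool), Continuous e ∧ (∀ α, e α ∈ S) ∧
      Continuous (fun α => φ (e α)) ∧ Continuous (fun α => h (e α)) ∧
      Function.Injective fun α => φ (e α) := by
  obtain ⟨e, he, heS, hφe, -, hinj⟩ := exists_perfect hφ measurable_id hS hunc
  -- a continuous probability measure on Cantor space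
  have hP : PolishSpace (ℕ → Bool) :=
    { toSecondCountableTopology := inferInstance
      toIsCompletelyMetrizableSpace := inferInstance }
  have hncR : ¬ Countable ℝ := fun h => Cardinal.not_countable_real (Set.countable_univ_iff.2 h)
  have hncC : ¬ Countable (ℕ → Bool) := by
    intro hc
    obtain ⟨F, hF⟩ := exists_surjective_nat (ℕ → Bool)
    obtain ⟨n, hn⟩ := hF fun n => !F n n
    have h1 := congrFun hn n
    cases h2 : F n n <;> simp [h2] at h1
  let f : ℝ ≃ᵐ (ℕ → Bool) := PolishSpace.measurableEquivOfNotCountable hncR hncC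
  let lam : Measure (ℕ → Bool) := (volume.restrict (Icc (0 : ℝ) 1)).map f
  have hlamfin : IsFiniteMeasure lam := by
    constructor
    rw [Measure.map_apply f.measurable MeasurableSet.univ]
    simp
  have hlam0 : ∀ E : Set (ℕ → Bool), E.Countable → lam E = 0 := by
    intro E hE
    show (volume.restrict (Icc (0 : ℝ) 1)).map f E = 0
    rw [f.map_apply]
    exact (hE.preimage f.injective).measure_zero _
  have hlam1 : lam univ ≠ 0 := by
    show (volume.restrict (Icc (0 : ℝ) 1)).map f univ ≠ 0
    rw [f.map_apply]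
    simp
  have h1 : AEMeasurable (fun α => h (e α)) lam :=
    (hh (lam.map e) inferInstance).comp_measurable he.measurable
  obtain ⟨g, hg, hge⟩ := h1
  let E : Set (ℕ → Bool) := (toMeasurable lam {α | h (e α) ≠ g α})ᶜ
  have hEm : MeasurableSet E := (measurableSet_toMeasurable _ _).compl
  have hE1 : ∀ α ∈ E, h (e α) = g α := by
    intro α hα
    by_contra hcon
    exact hα (subset_toMeasurable _ _ hcon)
  have hEc : lam Eᶜ = 0 := by
    show lam (toMeasurable lam {α | h (e α) ≠ g α})ᶜᶜ = 0
    rw [compl_compl, measure_toMeasurable]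
    exact hge
  have hEunc : ¬ E.Countable := by
    intro hc
    apply hlam1
    rw [← measure_add_measure_compl hEm, hlam0 E hc, hEc, add_zero]
  have hunc' : ¬ ((fun α => φ (e α)) '' E).Countable := by
    intro hc
    exact hEunc (countable_of_injective_of_countable_image (hinj.injOn) hc)
  obtain ⟨e', he', heE, h2, h3, h4⟩ := exists_perfect hφe.measurable hg hEm hunc'
  refine ⟨fun α => e (e' α), he.comp he', fun α => heS _, h2, ?_, h4⟩
  have h5 : (fun α => h (e (e' α))) = fun α => g (e' α) := funext fun α => hE1 _ (heE α)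
  rw [h5]
  exact h3

end Pool.Agent.Mart
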