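import Pool.Agent.Lib.MP_d1129e_lc.Table

/-!
Continuous maps on Cantor space are computable relative to a parameter; cones are Borel.
-/

set_option autoImplicit false

namespace Pool.Agent.Mart

open Pool.Agent.GammaZero Encodable

theorem isOpen_cyl (α : ℕ → Bool) (L : ℕ) : IsOpen {β : ℕ → Bool | ∀ k < L, β k = α k} := by
  have h1 : {β : ℕ → Bool | ∀ k < L, β k = α k} =
      ⋂ k ∈ Finset.range L, {β : ℕ → Bool | β k = α k} := by
    ext β
    simp
  rw [h1]
  refine isOpen_biInter_finset fun k _ => ?_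
  have h2 : Continuous fun β : ℕ → Bool => β k := continuous_apply k
  exact (isOpen_discrete ({α k} : Set Bool)).preimage h2

theorem unif_cont {g : (ℕ → Bool) → (ℕ → Bool)} (hg : Continuous g) (n : ℕ) :
    ∃ L, ∀ α β : ℕ → Bool, (∀ k < L, α k = β k) → g α n = g β n := by
  have h1 : ∀ α : ℕ → Bool, ∃ L, ∀ β : ℕ → Bool, (∀ k < L, β k = α k) → g β n = g α n := by
    intro α
    obtain ⟨L, hL⟩ := cont_pre hg α (n + 1)
    refine ⟨L, fun β hβ => hL β ?_ n (Nat.lt_succ_self n)⟩
    rw [Ext_iff_pre]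
    exact hβ
  choose L hL using h1
  obtain ⟨T, hT⟩ := isCompact_univ.elim_nhds_subcover
    (fun α => {β : ℕ → Bool | ∀ k < L α, β k = α k})
    (fun α _ => (isOpen_cyl α (L α)).mem_nhds fun _ _ => rfl)
  refine ⟨T.sup L, fun α β hαβ => ?_⟩
  have h2 := hT.2 (Set.mem_univ α)
  rw [Set.mem_iUnion₂] at h2
  obtain ⟨γ, hγ, hαγ⟩ := h2
  rw [hL γ α hαγ]
  refine (hL γ β fun k hk => ?_).symm
  rw [← hαβ k (lt_of_lt_of_le hk (Finset.le_sup hγ))]
  exact hαγ k hk

/-- a continuous map is computable relative to a parameter -/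
theorem cont_param {g : (ℕ → Bool) → (ℕ → Bool)} (hg : Continuous g) :
    ∃ p : ℕ → Bool, ∀ α c : ℕ → Bool, TR p c → TR α c → TR (g α) c := by
  choose L hL using unif_cont hg
  obtain ⟨p, hp⟩ := exists_table fun m : ℕ =>
    Nat.pair (L m) (g (ext (dl m.unpair.2)) m.unpair.1).toNat
  refine ⟨p, fun α c hpc hαc => ?_⟩
  have hp' := ci_tr hp hpc
  have h1 : CI {orc c} (fun n : ℕ => L n) := by
    refine (CI.left hp').congr fun n => ?_
    simp only [Nat.unpair_pair]
  have h2 : CI {orc c} (fun n : ℕ => encode (pre α (L n))) := CI.comp (ci_tr (ci_pre α) hαc) h1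
  have h3 : CI {orc c} (fun n : ℕ => (Nat.pair (L (Nat.pair n (encode (pre α (L n)))))
      (g (ext (dl (Nat.pair n (encode (pre α (L n)))).unpair.2))
        (Nat.pair n (encode (pre α (L n)))).unpair.1).toNat)) :=
    CI.comp hp' (CI.npair (CI.of_computable Computable.id) h2)
  rw [tr_iff_ci]
  refine (CI.right h3).congr fun n => ?_
  simp only [Nat.unpair_pair, dl_encode]
  congr 1
  apply hL
  intro k hk
  unfold ext
  rw [pre_getElem? α _ k hk]
  rfl

/-! ### cones are Borel -/

theorem tr_of_idx {x y : ℕ → Bool} {e : ℕ} (h : Idx x e y) : TR y x := by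
  have h1 : DI {orc x} (fun p : ℕ × ℕ => U x e p.1 p.2.unpair.1 p.2.unpair.2) :=
    DI.U (TR.refl x) (CI.const e) (CI.of_computable Computable.fst)
      (CI.left (CI.of_computable Computable.snd)) (CI.right (CI.of_computable Computable.snd))
  obtain ⟨c, hc, hc2⟩ := choice h1 (fun k => by
    obtain ⟨t, ht⟩ := h k
    refine ⟨Nat.pair t (y k).toNat, ?_⟩
    simp only [Nat.unpair_pair]
    exact ht)
  rw [tr_iff_ci]
  refine (CI.right hc).congr fun k => ?_
  obtain ⟨t, ht⟩ := h k
  exact ht.unique (hc2 k)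

theorem tr_iff_idx {x y : ℕ → Bool} : TR y x ↔ ∃ e, Idx x e y :=
  ⟨exists_idx, fun ⟨_, h⟩ => tr_of_idx h⟩

theorem pre_eq_ofFn (A : ℕ → Bool) (n : ℕ) : pre A n = List.ofFn fun i : Fin n => A i := by
  refine List.ext_getElem (by rw [pre_length, List.length_ofFn]) fun k h1 h2 => ?_
  rw [List.getElem_ofFn]
  rw [pre_length] at h1
  have h3 := pre_getElem? A n k h1
  rw [List.getElem?_eq_getElem (by rw [pre_length]; exact h1)] at h3
  exact Option.some.inj h3

theorem measurable_pre (n : ℕ) (Q : List Bool → Prop) :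
    MeasurableSet {A : ℕ → Bool | Q (pre A n)} := by
  have h1 : Measurable fun A : ℕ → Bool => (fun i : Fin n => A i) :=
    measurable_pi_lambda _ fun i => measurable_pi_apply _
  have h2 : {A : ℕ → Bool | Q (pre A n)} =
      (fun A : ℕ → Bool => (fun i : Fin n => A i)) ⁻¹' {f | Q (List.ofFn f)} := by
    ext A
    show Q (pre A n) ↔ Q (List.ofFn fun i : Fin n => A i)
    rw [pre_eq_ofFn]
  rw [h2]
  exact h1 (Set.toFinite _).measurableSet

theorem measurable_res (e k s w : ℕ) : MeasurableSet {A : ℕ → Bool | res A e k s = w} :=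
  measurable_pre s.unpair.1 fun σ =>
    evN (Nat.pair (Nat.pair s.unpair.2 e) (Nat.pair (encode σ) k)) = w

theorem measurable_U (e k t v : ℕ) : MeasurableSet {A : ℕ → Bool | U A e k t v} := by
  have h1 : {A : ℕ → Bool | U A e k t v} = ⋃ s ∈ Finset.range t,
      ({A : ℕ → Bool | res A e k s = v + 1} ∩ ⋂ s' ∈ Finset.range s,
        {A : ℕ → Bool | res A e k s' = 0}) := by
    ext A
    simp only [U, Set.mem_ofPred_eq, Set.mem_iUnion, Set.mem_inter_iff, Set.mem_iInter,
      Finset.mem_range, exists_prop]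
  rw [h1]
  refine Finset.measurableSet_biUnion _ fun s _ => (measurable_res _ _ _ _).inter ?_
  exact Finset.measurableSet_biInter _ fun s' _ => measurable_res _ _ _ _

theorem measurable_cone (C : ℕ → Bool) : MeasurableSet {A : ℕ → Bool | TR C A} := by
  have h1 : {A : ℕ → Bool | TR C A} =
      ⋃ e : ℕ, ⋂ k : ℕ, ⋃ t : ℕ, {A : ℕ → Bool | U A e k t (C k).toNat} := by
    ext A
    simp only [Set.mem_ofPred_eq, tr_iff_idx, Idx, Set.mem_iUnion, Set.mem_iInter]
  rw [h1]
  exact MeasurableSet.iUnion fun e => MeasurableSet.iInter fun k =>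
    MeasurableSet.iUnion fun t => measurable_U _ _ _ _

end Pool.Agent.Mart
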