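import Pool.Agent.Lib.MP_d1129e_lc.OC

/-!
The decoding lemma: a real `z` coded in the departures of four reals from reals computable in `x`.
-/

set_option autoImplicit false

namespace Pool.Agent.Mart

open Pool.Agent.GammaZero Encodable

/-- `e` is the least program which computes the first `M` bits of `Y` from `x` in `N` steps -/
def Id1 (x : ℕ → Bool) (M N : ℕ) (Y : ℕ → Bool) (e : ℕ) : Prop :=
  (∀ k < M, U x e k N (Y k).toNat) ∧ ∀ e' < e, ¬ ∀ k < M, U x e' k N (Y k).toNat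

theorem Id1.unique {x : ℕ → Bool} {M N : ℕ} {Y : ℕ → Bool} {e e' : ℕ} (h : Id1 x M N Y e)
    (h' : Id1 x M N Y e') : e = e' := by
  rcases lt_trichotomy e e' with hl | hl | hl
  · exact absurd h.1 (h'.2 e hl)
  · exact hl
  · exact absurd h'.1 (h.2 e' hl)

/-- the join used by the decoder -/
def WW (x : ℕ → Bool) (Y : ℕ → ℕ → Bool) : ℕ → Bool :=
  join5 fun j => if j = 0 then x else Y (j - 1)

/-- the reals `Y j` as read from the join -/
def YY (x : ℕ → Bool) (Y : ℕ → ℕ → Bool) (j k : ℕ) : Bool := WW x Y (5 * k + (j + 1))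

theorem YY_eq (x : ℕ → Bool) (Y : ℕ → ℕ → Bool) (j k : ℕ) (hj : j < 4) : YY x Y j k = Y j k := by
  unfold YY WW
  rw [join5_get _ _ _ (by omega)]
  rw [if_neg (by omega)]
  rfl

theorem x_tr_WW (x : ℕ → Bool) (Y : ℕ → ℕ → Bool) : TR x (WW x Y) := by
  rw [tr_iff_ci]
  refine (ci_orc_comp (TR.refl (WW x Y)) (CI.mul (CI.const 5)
    (CI.of_computable Computable.id))).congr fun n => ?_
  show (x n).toNat = (WW x Y (5 * n)).toNat
  have h := join5_get (fun j => if j = 0 then x else Y (j - 1)) n 0 (by norm_num)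
  unfold WW
  rw [Nat.add_zero] at h
  rw [h]
  rfl

theorem WW_tr {x : ℕ → Bool} {Y : ℕ → ℕ → Bool} {c : ℕ → Bool} (hx : TR x c)
    (hY : ∀ j < 4, TR (Y j) c) : TR (WW x Y) c := by
  refine join5_tr fun j hj => ?_
  by_cases h : j = 0
  · rw [if_pos h]; exact hx
  · rw [if_neg h]; exact hY _ (by omega)

section

variable (x : ℕ → Bool) (Y : ℕ → ℕ → Bool) {α : Type} [Primcodable α]

theorem ci_YY {j k : α → ℕ} (hj : CI {orc (WW x Y)} j) (hk : CI {orc (WW x Y)} k) :
    CI {orc (WW x Y)} (fun a => (YY x Y (j a) (k a)).toNat) :=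
  ci_orc_comp (TR.refl (WW x Y)) (CI.add (CI.mul (CI.const 5) hk) (CI.add hj (CI.const 1)))

theorem di_all {e u t j : α → ℕ} (he : CI {orc (WW x Y)} e) (hu : CI {orc (WW x Y)} u)
    (ht : CI {orc (WW x Y)} t) (hj : CI {orc (WW x Y)} j) :
    DI {orc (WW x Y)} (fun a => ∀ k < u a, U x (e a) k (t a) (YY x Y (j a) k).toNat) := by
  have h := DI.U (x := x) (x_tr_WW x Y) (α := α × ℕ) (he.comp_computable Computable.fst)
    (CI.of_computable Computable.snd) (ht.comp_computable Computable.fst)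
    (ci_YY x Y (hj.comp_computable Computable.fst) (CI.of_computable Computable.snd))
  exact DI.ball h hu

theorem di_diff {e u t j : α → ℕ} (he : CI {orc (WW x Y)} e) (hu : CI {orc (WW x Y)} u)
    (ht : CI {orc (WW x Y)} t) (hj : CI {orc (WW x Y)} j) :
    DI {orc (WW x Y)} (fun a => ∃ b < 2, b ≠ (YY x Y (j a) (u a)).toNat ∧
      U x (e a) (u a) (t a) b) := by
  have h := DI.U (x := x) (x_tr_WW x Y) (α := α × ℕ) (he.comp_computable Computable.fst)
    (hu.comp_computable Computable.fst) (ht.comp_computable Computable.fst)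
    (CI.of_computable Computable.snd)
  have h2 : DI {orc (WW x Y)} (fun q : α × ℕ => q.2 ≠ (YY x Y (j q.1) (u q.1)).toNat) :=
    DI.not (DI.eq (CI.of_computable Computable.snd)
      (ci_YY x Y (hj.comp_computable Computable.fst) (hu.comp_computable Computable.fst)))
  exact DI.bex (h2.and h) (CI.const 2)

theorem di_id1 {M N j f : α → ℕ} (hM : CI {orc (WW x Y)} M) (hN : CI {orc (WW x Y)} N)
    (hj : CI {orc (WW x Y)} j) (hf : CI {orc (WW x Y)} f) :
    DI {orc (WW x Y)} (fun a => Id1 x (M a) (N a) (YY x Y (j a)) (f a)) := by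
  refine DI.and (di_all x Y hf hM hN hj) ?_
  have h := di_all x Y (α := α × ℕ) (CI.of_computable Computable.snd)
    (hM.comp_computable Computable.fst) (hN.comp_computable Computable.fst)
    (hj.comp_computable Computable.fst)
  exact DI.ball h.not hf

end

theorem first_diff {Y y : ℕ → Bool} {u u' : ℕ} (h : (∀ k < u, Y k = y k) ∧ Y u ≠ y u)
    (h' : (∀ k < u', Y k = y k) ∧ Y u' ≠ y u') : u = u' := by
  rcases lt_trichotomy u u' with hl | hl | hl
  · exact absurd (h'.1 u hl) h.2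
  · exact hl
  · exact absurd (h.1 u' hl) h'.2

theorem toNat_inj {a b : Bool} (h : a.toNat = b.toNat) : a = b := by
  cases a <;> cases b <;> simp_all

/-- reading off the first difference -/
theorem read_diff {x Y y : ℕ → Bool} {e u t : ℕ} (he : Idx x e y)
    (h1 : ∀ k < u, U x e k t (Y k).toNat) (h2 : ∃ b < 2, b ≠ (Y u).toNat ∧ U x e u t b) :
    (∀ k < u, Y k = y k) ∧ Y u ≠ y u := by
  constructor
  · intro k hk
    obtain ⟨t', ht'⟩ := he k
    exact toNat_inj ((h1 k hk).unique ht')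
  · obtain ⟨b, -, hb, hU⟩ := h2
    obtain ⟨t', ht'⟩ := he u
    have h := hU.unique ht'
    intro hc
    apply hb
    rw [h, hc]

theorem exists_steps {x y : ℕ → Bool} {e : ℕ} (he : Idx x e y) (n : ℕ) :
    ∃ t, ∀ k ≤ n, U x e k t (y k).toNat := by
  induction n with
  | zero =>
    obtain ⟨t, ht⟩ := he 0
    refine ⟨t, fun k hk => ?_⟩
    have : k = 0 := by omega
    subst this
    exact ht
  | succ n ih =>
    obtain ⟨t, ht⟩ := ih
    obtain ⟨t', ht'⟩ := he (n + 1)
    refine ⟨max t t', fun k hk => ?_⟩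
    rcases Nat.lt_or_ge n k with h | h
    · have : k = n + 1 := by omega
      subst this
      exact ht'.mono (le_max_right _ _)
    · exact (ht k h).mono (le_max_left _ _)

/-- the decoding lemma -/
theorem decode_lemma (x : ℕ → Bool) (Y : ℕ → ℕ → Bool) (z : ℕ → Bool) (y y' : ℕ → ℕ → Bool)
    (u v : ℕ → ℕ) (h0 : TR (y 0) x) (h0' : TR (y' 0) x)
    (hu : ∀ i, (∀ k < u i, Y (2 * (i % 2)) k = y i k) ∧ Y (2 * (i % 2)) (u i) ≠ y i (u i))
    (hv : ∀ i, (∀ k < v i, Y (2 * (i % 2) + 1) k = y' i k) ∧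
      Y (2 * (i % 2) + 1) (v i) ≠ y' i (v i))
    (hz : ∀ i, z i = decide (u i < v i))
    (hI : ∀ i, ∃ e, Id1 x (min (u i) (v i)) (max (u i) (v i)) (Y (2 * ((i + 1) % 2))) e ∧
      Idx x e (y (i + 1)))
    (hI' : ∀ i, ∃ e, Id1 x (min (u i) (v i)) (max (u i) (v i)) (Y (2 * ((i + 1) % 2) + 1)) e ∧
      Idx x e (y' (i + 1))) :
    TR z (WW x Y) := by
  obtain ⟨e0, he0⟩ := exists_idx h0
  obtain ⟨e0', he0'⟩ := exists_idx h0'
  choose E hE1 hE2 using hI
  choose E' hE1' hE2' using hI'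
  let F : ℕ → ℕ := fun i => Nat.casesOn i e0 E
  let F' : ℕ → ℕ := fun i => Nat.casesOn i e0' E'
  have hF : ∀ i, Idx x (F i) (y i) := by
    intro i
    cases i with
    | zero => exact he0
    | succ i => exact hE2 i
  have hF' : ∀ i, Idx x (F' i) (y' i) := by
    intro i
    cases i with
    | zero => exact he0'
    | succ i => exact hE2' i
  let B : ℕ → ℕ := fun i => Nat.casesOn i 0 fun i => (z i).toNat
  let s : ℕ → ℕ := fun i => Nat.pair (F i) (Nat.pair (F' i) (B i))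
  let P : ℕ × ℕ × ℕ → Prop := fun p =>
    (∀ k < p.2.2.unpair.1, U x p.2.1.unpair.1 k p.2.2.unpair.2.unpair.2.unpair.1
      (YY x Y (2 * (p.1 % 2)) k).toNat) ∧
    (∃ b < 2, b ≠ (YY x Y (2 * (p.1 % 2)) p.2.2.unpair.1).toNat ∧
      U x p.2.1.unpair.1 p.2.2.unpair.1 p.2.2.unpair.2.unpair.2.unpair.1 b) ∧
    (∀ k < p.2.2.unpair.2.unpair.1, U x p.2.1.unpair.2.unpair.1 k
      p.2.2.unpair.2.unpair.2.unpair.1 (YY x Y (2 * (p.1 % 2) + 1) k).toNat) ∧
    (∃ b < 2, b ≠ (YY x Y (2 * (p.1 % 2) + 1) p.2.2.unpair.2.unpair.1).toNat ∧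
      U x p.2.1.unpair.2.unpair.1 p.2.2.unpair.2.unpair.1
        p.2.2.unpair.2.unpair.2.unpair.1 b) ∧
    Id1 x (min p.2.2.unpair.1 p.2.2.unpair.2.unpair.1) (max p.2.2.unpair.1
      p.2.2.unpair.2.unpair.1) (YY x Y (2 * ((p.1 + 1) % 2)))
        p.2.2.unpair.2.unpair.2.unpair.2.unpair.1 ∧
    Id1 x (min p.2.2.unpair.1 p.2.2.unpair.2.unpair.1) (max p.2.2.unpair.1
      p.2.2.unpair.2.unpair.1) (YY x Y (2 * ((p.1 + 1) % 2) + 1))
        p.2.2.unpair.2.unpair.2.unpair.2.unpair.2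
  let nxt : ℕ × ℕ × ℕ → ℕ := fun p =>
    Nat.pair p.2.2.unpair.2.unpair.2.unpair.2.unpair.1
      (Nat.pair p.2.2.unpair.2.unpair.2.unpair.2.unpair.2
        (if p.2.2.unpair.1 < p.2.2.unpair.2.unpair.1 then 1 else 0))
  -- computability
  have ci : CI {orc (WW x Y)} (fun p : ℕ × ℕ × ℕ => p.1) := CI.of_computable Computable.fst
  have cs : CI {orc (WW x Y)} (fun p : ℕ × ℕ × ℕ => p.2.1) :=
    CI.of_computable (Computable.fst.comp Computable.snd)
  have cw : CI {orc (WW x Y)} (fun p : ℕ × ℕ × ℕ => p.2.2) :=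
    CI.of_computable (Computable.snd.comp Computable.snd)
  have ce := CI.left cs
  have ce' := CI.left (CI.right cs)
  have cu := CI.left cw
  have cv := CI.left (CI.right cw)
  have ct := CI.left (CI.right (CI.right cw))
  have cf := CI.left (CI.right (CI.right (CI.right cw)))
  have cf' := CI.right (CI.right (CI.right (CI.right cw)))
  have cj : CI {orc (WW x Y)} (fun p : ℕ × ℕ × ℕ => 2 * (p.1 % 2)) :=
    CI.mul (CI.const 2) (CI.mod ci (CI.const 2))
  have cj' : CI {orc (WW x Y)} (fun p : ℕ × ℕ × ℕ => 2 * (p.1 % 2) + 1) :=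
    CI.add cj (CI.const 1)
  have ck : CI {orc (WW x Y)} (fun p : ℕ × ℕ × ℕ => 2 * ((p.1 + 1) % 2)) :=
    CI.mul (CI.const 2) (CI.mod (CI.add ci (CI.const 1)) (CI.const 2))
  have ck' : CI {orc (WW x Y)} (fun p : ℕ × ℕ × ℕ => 2 * ((p.1 + 1) % 2) + 1) :=
    CI.add ck (CI.const 1)
  have cM : CI {orc (WW x Y)} (fun p : ℕ × ℕ × ℕ =>
      min p.2.2.unpair.1 p.2.2.unpair.2.unpair.1) :=
    CI.comp₂ (h := fun a b => min a b) Primrec.nat_min.to_comp cu cv
  have cN : CI {orc (WW x Y)} (fun p : ℕ × ℕ × ℕ =>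
      max p.2.2.unpair.1 p.2.2.unpair.2.unpair.1) :=
    CI.comp₂ (h := fun a b => max a b) Primrec.nat_max.to_comp cu cv
  have hP : DI {orc (WW x Y)} P :=
    (di_all x Y ce cu ct cj).and ((di_diff x Y ce cu ct cj).and ((di_all x Y ce' cv ct cj').and
      ((di_diff x Y ce' cv ct cj').and ((di_id1 x Y cM cN ck cf).and
        (di_id1 x Y cM cN ck' cf')))))
  have hn : CI {orc (WW x Y)} nxt :=
    CI.npair cf (CI.npair cf' (CI.ite (DI.lt cu cv) (CI.const 1) (CI.const 0)))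
  -- the reals read from the join
  have hYY : ∀ j < 4, YY x Y j = Y j := fun j hj => funext fun k => YY_eq x Y j k hj
  have hj1 : ∀ i, YY x Y (2 * (i % 2)) = Y (2 * (i % 2)) := fun i => hYY _ (by omega)
  have hj2 : ∀ i, YY x Y (2 * (i % 2) + 1) = Y (2 * (i % 2) + 1) := fun i => hYY _ (by omega)
  have hex : ∀ i, ∃ w, P (i, s i, w) := by
    intro i
    obtain ⟨t1, ht1⟩ := exists_steps (hF i) (u i)
    obtain ⟨t2, ht2⟩ := exists_steps (hF' i) (v i)
    refine ⟨Nat.pair (u i) (Nat.pair (v i) (Nat.pair (max t1 t2) (Nat.pair (E i) (E' i)))), ?_⟩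
    simp only [P, s, Nat.unpair_pair, hj1, hj2]
    refine ⟨?_, ?_, ?_, ?_, hE1 i, hE1' i⟩
    · intro k hk
      rw [(hu i).1 k hk]
      exact (ht1 k (le_of_lt hk)).mono (le_max_left _ _)
    · refine ⟨(y i (u i)).toNat, ?_, ?_, (ht1 _ le_rfl).mono (le_max_left _ _)⟩
      · cases y i (u i) <;> decide
      · intro hc
        exact (hu i).2 (toNat_inj hc.symm)
    · intro k hk
      rw [(hv i).1 k hk]
      exact (ht2 k (le_of_lt hk)).mono (le_max_right _ _)
    · refine ⟨(y' i (v i)).toNat, ?_, ?_, (ht2 _ le_rfl).mono (le_max_right _ _)⟩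
      · cases y' i (v i) <;> decide
      · intro hc
        exact (hv i).2 (toNat_inj hc.symm)
  have hnx : ∀ i w, P (i, s i, w) → nxt (i, s i, w) = s (i + 1) := by
    intro i w hw
    simp only [P, s, Nat.unpair_pair, hj1, hj2] at hw
    obtain ⟨h1, h2, h3, h4, h5, h6⟩ := hw
    have e1 := first_diff (read_diff (hF i) h1 h2) (hu i)
    have e2 := first_diff (read_diff (hF' i) h3 h4) (hv i)
    simp only [nxt]
    rw [e1, e2] at h5 h6 ⊢
    rw [h5.unique (hE1 i), h6.unique (hE1' i)]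
    show _ = Nat.pair (E i) (Nat.pair (E' i) (z i).toNat)
    rw [hz i]
    by_cases h : u i < v i
    · simp [h]
    · simp [h]
  have hs := iter_search hP hn s hex hnx
  rw [tr_iff_ci]
  have h1 : CI {orc (WW x Y)} (fun i : ℕ => (s (i + 1)).unpair.2.unpair.2) :=
    CI.right (CI.right (CI.comp hs (CI.of_computable Computable.succ)))
  refine h1.congr fun i => ?_
  show _ = (Nat.pair (E i) (Nat.pair (E' i) (z i).toNat)).unpair.2.unpair.2
  simp only [Nat.unpair_pair]

end Pool.Agent.Mart
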