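import Mathlib

/-!
Normal form for oracle computations: a partial function recursive in the characteristic function of
a real is approximated by a monotone partial recursive functional on finite strings.
(Copied from the proof of MP_4c1ea5_lc.)
-/

set_option autoImplicit false

namespace Pool.Agent.Mart

section Computability

open Encodable

/-- first `n` bits of `x` -/
def pre (x : ℕ → Bool) (n : ℕ) : List Bool := (List.range n).map x

def orc (x : ℕ → Bool) : ℕ →. ℕ := fun n => Part.some (x n).toNat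

def MonoE (E : List Bool → ℕ →. ℕ) : Prop :=
  ∀ τ τ' : List Bool, τ <+: τ' → ∀ k v, v ∈ E τ k → v ∈ E τ' k

def Approx (E : List Bool → ℕ →. ℕ) (x : ℕ → Bool) (f : ℕ →. ℕ) : Prop :=
  ∀ k v, v ∈ f k ↔ ∃ n, v ∈ E (pre x n) k

lemma pre_prefix (x : ℕ → Bool) {m n : ℕ} (h : m ≤ n) : pre x m <+: pre x n := by
  unfold pre
  apply List.IsPrefix.map
  obtain ⟨d, rfl⟩ := Nat.exists_eq_add_of_le h
  rw [List.range_add]
  exact List.prefix_append _ _

lemma mono_pre {E : List Bool → ℕ →. ℕ} (hE : MonoE E) {x : ℕ → Bool} {m n : ℕ} (h : m ≤ n)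
    {k v : ℕ} (hv : v ∈ E (pre x m) k) : v ∈ E (pre x n) k :=
  hE _ _ (pre_prefix x h) k v hv

lemma pre_getElem? (x : ℕ → Bool) (n i : ℕ) (h : i < n) : (pre x n)[i]? = some (x i) := by
  unfold pre
  simp [h]

lemma pre_getElem?_none (x : ℕ → Bool) (n i : ℕ) (h : n ≤ i) : (pre x n)[i]? = none := by
  unfold pre
  simp [h]

def precE (F H : List Bool → ℕ →. ℕ) : List Bool → ℕ →. ℕ := fun τ p =>
  (Nat.unpair p).2.rec (F τ (Nat.unpair p).1) fun y IH => IH >>= fun i =>
    H τ (Nat.pair (Nat.unpair p).1 (Nat.pair y i))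

lemma exists_E {x : ℕ → Bool} {f : ℕ →. ℕ} (hf : Nat.RecursiveIn {orc x} f) :
    ∃ E : List Bool → ℕ →. ℕ, Partrec₂ E ∧ MonoE E ∧ Approx E x f := by
  induction hf with
  | zero =>
    refine ⟨fun _ _ => Part.some 0, (Computable.const 0).partrec, fun _ _ _ _ _ h => h, ?_⟩
    intro k v
    constructor
    · intro h; exact ⟨0, h⟩
    · rintro ⟨n, h⟩; exact h
  | succ =>
    refine ⟨fun _ k => Part.some (k + 1), ?_, fun _ _ _ _ _ h => h, ?_⟩
    · exact (Computable.succ.comp Computable.snd).partrec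
    · intro k v
      constructor
      · intro h; exact ⟨0, h⟩
      · rintro ⟨n, h⟩; exact h
  | left =>
    refine ⟨fun _ k => Part.some (Nat.unpair k).1, ?_, fun _ _ _ _ _ h => h, ?_⟩
    · exact (Computable.fst.comp (Computable.unpair.comp Computable.snd)).partrec
    · intro k v
      constructor
      · intro h; exact ⟨0, h⟩
      · rintro ⟨n, h⟩; exact h
  | right =>
    refine ⟨fun _ k => Part.some (Nat.unpair k).2, ?_, fun _ _ _ _ _ h => h, ?_⟩
    · exact (Computable.snd.comp (Computable.unpair.comp Computable.snd)).partrec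
    · intro k v
      constructor
      · intro h; exact ⟨0, h⟩
      · rintro ⟨n, h⟩; exact h
  | oracle g hg =>
    rw [Set.mem_singleton_iff] at hg
    subst hg
    refine ⟨fun τ k => (((τ[k]?).map Bool.toNat : Option ℕ) : Part ℕ), ?_, ?_, ?_⟩
    · have h1 : Computable fun p : List Bool × ℕ => (p.1[p.2]? : Option Bool) :=
        Computable.list_getElem?
      have h2 : Computable₂ fun (_ : List Bool × ℕ) (b : Bool) => b.toNat :=
        ((Primrec.dom_finite Bool.toNat).comp Primrec.snd).to_comp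
      exact (Computable.option_map h1 h2).ofOption
    · intro τ τ' h k v hv
      simp only [Part.mem_ofOption, Option.mem_def, Option.map_eq_some_iff] at hv ⊢
      obtain ⟨b, hb, rfl⟩ := hv
      obtain ⟨t, rfl⟩ := h
      obtain ⟨hk, _⟩ := List.getElem?_eq_some_iff.1 hb
      exact ⟨b, by rw [List.getElem?_append_left hk]; exact hb, rfl⟩
    · intro k v
      simp only [orc, Part.mem_some_iff, Part.mem_ofOption, Option.mem_def,
        Option.map_eq_some_iff]
      constructor
      · rintro rfl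
        exact ⟨k + 1, x k, pre_getElem? x _ _ (Nat.lt_succ_self k), rfl⟩
      · rintro ⟨n, b, hb, rfl⟩
        by_cases h : k < n
        · rw [pre_getElem? x n k h] at hb
          cases hb; rfl
        · rw [pre_getElem?_none x n k (by omega)] at hb
          cases hb
  | @pair f h hf hh ihf ihh =>
    obtain ⟨F, hF, mF, aF⟩ := ihf
    obtain ⟨H, hH, mH, aH⟩ := ihh
    refine ⟨fun τ k => Nat.pair <$> F τ k <*> H τ k, ?_, ?_, ?_⟩
    · have : Partrec fun p : List Bool × ℕ => (F p.1 p.2).bind fun a =>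
          (H p.1 p.2).map fun b => Nat.pair a b := by
        refine Partrec.bind hF ?_
        refine Partrec.map (f := fun q : (List Bool × ℕ) × ℕ => H q.1.1 q.1.2)
          (g := fun q b => Nat.pair q.2 b) ?_ ?_
        · exact hH.comp (Computable.fst.comp Computable.fst) (Computable.snd.comp Computable.fst)
        · exact (Primrec₂.natPair.comp (Primrec.snd.comp Primrec.fst) Primrec.snd).to_comp
      refine this.of_eq fun p => ?_
      ext v
      simp [Seq.seq]
    · intro τ τ' hτ k v hv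
      simp only [Seq.seq, Part.bind_eq_bind, Part.map_eq_map, Part.mem_bind_iff,
        Part.mem_map_iff] at hv ⊢
      obtain ⟨g, ⟨a, ha, rfl⟩, b, hb, rfl⟩ := hv
      exact ⟨_, ⟨a, mF _ _ hτ _ _ ha, rfl⟩, b, mH _ _ hτ _ _ hb, rfl⟩
    · intro k v
      simp only [Seq.seq, Part.bind_eq_bind, Part.map_eq_map, Part.mem_bind_iff,
        Part.mem_map_iff]
      constructor
      · rintro ⟨g, ⟨a, ha, rfl⟩, b, hb, rfl⟩
        obtain ⟨n1, h1⟩ := (aF _ _).1 ha
        obtain ⟨n2, h2⟩ := (aH _ _).1 hb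
        exact ⟨max n1 n2, _, ⟨a, mono_pre mF (le_max_left _ _) h1, rfl⟩, b,
          mono_pre mH (le_max_right _ _) h2, rfl⟩
      · rintro ⟨n, g, ⟨a, ha, rfl⟩, b, hb, rfl⟩
        exact ⟨_, ⟨a, (aF _ _).2 ⟨n, ha⟩, rfl⟩, b, (aH _ _).2 ⟨n, hb⟩, rfl⟩
  | @comp f h hf hh ihf ihh =>
    obtain ⟨F, hF, mF, aF⟩ := ihf
    obtain ⟨H, hH, mH, aH⟩ := ihh
    refine ⟨fun τ k => (H τ k).bind (F τ), ?_, ?_, ?_⟩
    · have : Partrec fun p : List Bool × ℕ => (H p.1 p.2).bind fun a => F p.1 a := by
        refine Partrec.bind hH ?_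
        exact hF.comp (Computable.fst.comp Computable.fst) Computable.snd
      exact this
    · intro τ τ' hτ k v hv
      obtain ⟨a, ha, hv⟩ := Part.mem_bind_iff.1 hv
      exact Part.mem_bind_iff.2 ⟨a, mH _ _ hτ _ _ ha, mF _ _ hτ _ _ hv⟩
    · intro k v
      constructor
      · intro hv
        obtain ⟨a, ha, hv⟩ := Part.mem_bind_iff.1 hv
        obtain ⟨n1, h1⟩ := (aH _ _).1 ha
        obtain ⟨n2, h2⟩ := (aF _ _).1 hv
        exact ⟨max n1 n2, Part.mem_bind_iff.2 ⟨a, mono_pre mH (le_max_left _ _) h1,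
          mono_pre mF (le_max_right _ _) h2⟩⟩
      · rintro ⟨n, hv⟩
        obtain ⟨a, ha, hv⟩ := Part.mem_bind_iff.1 hv
        exact Part.mem_bind_iff.2 ⟨a, (aH _ _).2 ⟨n, ha⟩, (aF _ _).2 ⟨n, hv⟩⟩
  | @prec f h hf hh ihf ihh =>
    obtain ⟨F, hF, mF, aF⟩ := ihf
    obtain ⟨H, hH, mH, aH⟩ := ihh
    refine ⟨precE F H, ?_, ?_, ?_⟩
    · have := Partrec.nat_rec (α := List Bool × ℕ) (σ := ℕ)
        (f := fun p => (Nat.unpair p.2).2)
        (g := fun p => F p.1 (Nat.unpair p.2).1)
        (h := fun p q => H p.1 (Nat.pair (Nat.unpair p.2).1 (Nat.pair q.1 q.2)))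
        (Computable.snd.comp (Computable.unpair.comp Computable.snd))
        (hF.comp Computable.fst (Computable.fst.comp (Computable.unpair.comp Computable.snd)))
        (hH.comp (Computable.fst.comp Computable.fst)
          ((Primrec₂.natPair.comp
            (Primrec.fst.comp (Primrec.unpair.comp (Primrec.snd.comp Primrec.fst)))
            (Primrec₂.natPair.comp (Primrec.fst.comp Primrec.snd)
              (Primrec.snd.comp Primrec.snd))).to_comp))
      exact this
    · intro τ τ' hτ k v hv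
      unfold precE at hv ⊢
      generalize (Nat.unpair k).2 = n at hv ⊢
      induction n generalizing v with
      | zero => exact mF _ _ hτ _ _ hv
      | succ n ih =>
        simp only [Part.bind_eq_bind, Part.mem_bind_iff] at hv ⊢
        obtain ⟨i, hi, hv⟩ := hv
        exact ⟨i, ih i hi, mH _ _ hτ _ _ hv⟩
    · intro k v
      have key : ∀ (n : ℕ) (v : ℕ),
          (v ∈ (Nat.rec (f (Nat.unpair k).1) (fun y IH => IH >>= fun i =>
            h (Nat.pair (Nat.unpair k).1 (Nat.pair y i))) n : Part ℕ)) ↔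
          ∃ N, v ∈ (Nat.rec (F (pre x N) (Nat.unpair k).1) (fun y IH => IH >>= fun i =>
            H (pre x N) (Nat.pair (Nat.unpair k).1 (Nat.pair y i))) n : Part ℕ) := by
        intro n
        induction n with
        | zero => intro v; exact aF _ _
        | succ n ih =>
          intro v
          simp only [Part.bind_eq_bind, Part.mem_bind_iff]
          have hmono : ∀ (M N : ℕ), M ≤ N → ∀ w,
              w ∈ (Nat.rec (F (pre x M) (Nat.unpair k).1) (fun y IH => IH.bind fun i =>
                H (pre x M) (Nat.pair (Nat.unpair k).1 (Nat.pair y i))) n : Part ℕ) →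
              w ∈ (Nat.rec (F (pre x N) (Nat.unpair k).1) (fun y IH => IH.bind fun i =>
                H (pre x N) (Nat.pair (Nat.unpair k).1 (Nat.pair y i))) n : Part ℕ) := by
            intro M N hMN
            clear ih
            induction n with
            | zero => intro w hw; exact mono_pre mF hMN hw
            | succ n ih2 =>
              intro w hw
              simp only [Part.mem_bind_iff] at hw ⊢
              obtain ⟨i, hi, hw⟩ := hw
              exact ⟨i, ih2 i hi, mono_pre mH hMN hw⟩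
          constructor
          · rintro ⟨i, hi, hv⟩
            obtain ⟨n1, h1⟩ := (ih i).1 hi
            obtain ⟨n2, h2⟩ := (aH _ _).1 hv
            exact ⟨max n1 n2, i, hmono _ _ (le_max_left _ _) _ h1,
              mono_pre mH (le_max_right _ _) h2⟩
          · rintro ⟨N, i, hi, hv⟩
            exact ⟨i, (ih i).2 ⟨N, hi⟩, (aH _ _).2 ⟨N, hv⟩⟩
      exact key (Nat.unpair k).2 v
  | @rfind f hf ihf =>
    obtain ⟨F, hF, mF, aF⟩ := ihf
    let P : List Bool → ℕ → ℕ →. Bool := fun τ a n =>
      (F τ (Nat.pair a n)).map fun m => decide (m = 0)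
    have hP : ∀ τ a n b, b ∈ P τ a n ↔ ∃ m, m ∈ F τ (Nat.pair a n) ∧ decide (m = 0) = b := by
      intro τ a n b
      exact Part.mem_map_iff _
    refine ⟨fun τ a => Nat.rfind (P τ a), ?_, ?_, ?_⟩
    · refine Partrec.rfind (p := fun (p : List Bool × ℕ) => P p.1 p.2) ?_
      refine Partrec.map (f := fun q : (List Bool × ℕ) × ℕ => F q.1.1 (Nat.pair q.1.2 q.2))
        (g := fun _ m => decide (m = 0)) ?_ ?_
      · exact hF.comp (Computable.fst.comp Computable.fst)
          ((Primrec₂.natPair.comp (Primrec.snd.comp Primrec.fst) Primrec.snd).to_comp)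
      · have := (Primrec.eq.comp (Primrec.snd (α := (List Bool × ℕ) × ℕ) (β := ℕ))
          (Primrec.const 0)).decide
        exact this.to_comp
    · intro τ τ' hτ a v hv
      have hv' : v ∈ Nat.rfind (P τ a) := hv
      show v ∈ Nat.rfind (P τ' a)
      rw [Nat.mem_rfind] at hv' ⊢
      simp only [hP] at hv' ⊢
      obtain ⟨⟨m, hm, hm0⟩, hlt⟩ := hv'
      refine ⟨⟨m, mF _ _ hτ _ _ hm, hm0⟩, fun {j} hj => ?_⟩
      obtain ⟨m', hm', h0⟩ := hlt hj
      exact ⟨m', mF _ _ hτ _ _ hm', h0⟩
    · intro a v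
      constructor
      · intro hv
        obtain ⟨hv1, hlt⟩ := Nat.mem_rfind.1 hv
        obtain ⟨m, hm, hm0⟩ := (Part.mem_map_iff _).1 hv1
        obtain ⟨n0, h0⟩ := (aF _ _).1 hm
        have hex : ∀ j : ℕ, ∃ N, j < v → ∃ m', m' ∈ F (pre x N) (Nat.pair a j) ∧
            decide (m' = 0) = false := by
          intro j
          by_cases hj : j < v
          · obtain ⟨m', hm', h'⟩ := (Part.mem_map_iff _).1 (hlt hj)
            obtain ⟨N, hN⟩ := (aF _ _).1 hm'
            exact ⟨N, fun _ => ⟨m', hN, h'⟩⟩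
          · exact ⟨0, fun h => absurd h hj⟩
        choose N hN using hex
        refine ⟨max n0 ((Finset.range v).sup N), Nat.mem_rfind.2
          ⟨(hP _ _ _ _).2 ⟨m, mono_pre mF (le_max_left _ _) h0, hm0⟩, fun {j} hj => ?_⟩⟩
        obtain ⟨m', hm', h'⟩ := hN j hj
        exact (hP _ _ _ _).2 ⟨m', mono_pre mF ((Finset.le_sup (Finset.mem_range.2 hj)).trans
          (le_max_right _ _)) hm', h'⟩
      · rintro ⟨n, hv⟩
        obtain ⟨hv1, hlt⟩ := Nat.mem_rfind.1 hv
        obtain ⟨m, hm, hm0⟩ := (hP _ _ _ _).1 hv1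
        refine Nat.mem_rfind.2 ⟨(Part.mem_map_iff _).2 ⟨m, (aF _ _).2 ⟨n, hm⟩, hm0⟩,
          fun {j} hj => ?_⟩
        obtain ⟨m', hm', h'⟩ := (hP _ _ _ _).1 (hlt hj)
        exact (Part.mem_map_iff _).2 ⟨m', (aF _ _).2 ⟨n, hm'⟩, h'⟩

/-- the `e`-th functional -/
def EE (e : ℕ) : List Bool → ℕ →. ℕ := fun τ k =>
  (Denumerable.ofNat Nat.Partrec.Code e).eval (encode (τ, k))

lemma EE_partrec (e : ℕ) : Partrec₂ (EE e) := by
  have : Partrec fun p : List Bool × ℕ =>
      (Denumerable.ofNat Nat.Partrec.Code e).eval (encode p) :=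
    Nat.Partrec.Code.eval_part.comp (Computable.const _) Computable.encode
  exact this

lemma EE_surj {E : List Bool → ℕ →. ℕ} (hE : Partrec₂ E) : ∃ e, EE e = E := by
  obtain ⟨c, hc⟩ := Nat.Partrec.Code.exists_code.1 hE
  refine ⟨encode c, ?_⟩
  funext τ k
  unfold EE
  rw [Denumerable.ofNat_encode, hc]
  ext v
  simp

end Computability

end Pool.Agent.Mart
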