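import Pool.Agent.Lib.MP_d1129e_lc.NF
import Pool.Agent.Lib.MP_349b57_lc.Codes

/-!
Oracle computability tools: joins, indices relative to a real, iterated searches.
-/

set_option autoImplicit false

namespace Pool.Agent.GammaZero

open Encodable

theorem CI_subst {O O' : Set (ℕ →. ℕ)} {α : Type} [Primcodable α] {f : α → ℕ} (h : CI O f)
    (hO : ∀ g ∈ O, Nat.RecursiveIn O' g) : CI O' f := by
  obtain ⟨F, hF, hFe⟩ := h
  exact ⟨F, hF.subst hO, hFe⟩

theorem DI_subst {O O' : Set (ℕ →. ℕ)} {α : Type} [Primcodable α] {p : α → Prop} (h : DI O p)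
    (hO : ∀ g ∈ O, Nat.RecursiveIn O' g) : DI O' p := by
  obtain ⟨g, hg, h1, h2⟩ := h
  exact ⟨g, CI_subst hg hO, h1, h2⟩

/-- pairing inside the calculus -/
theorem CI.npair {O : Set (ℕ →. ℕ)} {α : Type} [Primcodable α] {f g : α → ℕ} (hf : CI O f)
    (hg : CI O g) : CI O (fun a => Nat.pair (f a) (g a)) :=
  CI.comp₂ (h := Nat.pair) Primrec₂.natPair.to_comp hf hg

theorem CI.computable_comp {O : Set (ℕ →. ℕ)} {α : Type} [Primcodable α] {h : ℕ → ℕ}
    (hh : Computable h) {f : α → ℕ} (hf : CI O f) : CI O (fun a => h (f a)) :=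
  CI.comp (CI.of_computable hh) hf

theorem CI.left {O : Set (ℕ →. ℕ)} {α : Type} [Primcodable α] {f : α → ℕ} (hf : CI O f) :
    CI O (fun a => (f a).unpair.1) :=
  CI.computable_comp (Computable.fst.comp Computable.unpair) hf

theorem CI.right {O : Set (ℕ →. ℕ)} {α : Type} [Primcodable α] {f : α → ℕ} (hf : CI O f) :
    CI O (fun a => (f a).unpair.2) :=
  CI.computable_comp (Computable.snd.comp Computable.unpair) hf

theorem CI.congr {O : Set (ℕ →. ℕ)} {α : Type} [Primcodable α] {f g : α → ℕ} (hf : CI O f)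
    (h : ∀ a, g a = f a) : CI O g := by
  have : g = f := funext h
  rw [this]; exact hf

/-- composition with a tuple of computed arguments -/
theorem CI.app2 {O : Set (ℕ →. ℕ)} {α : Type} [Primcodable α] {h : ℕ × ℕ → ℕ} (hh : CI O h)
    {f g : α → ℕ} (hf : CI O f) (hg : CI O g) : CI O (fun a => h (f a, g a)) := by
  have h1 : CI O (fun p : α × ℕ => h (f p.1, p.2)) := by
    have h2 : CI O (fun n : ℕ => h n.unpair) := hh.comp_computable Computable.unpair
    refine (CI.comp h2 (CI.npair (hf.comp_computable Computable.fst)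
      (CI.of_computable Computable.snd))).congr fun a => ?_
    simp only [Nat.unpair_pair]
  exact CI.sub h1 hg

theorem CI.app3 {O : Set (ℕ →. ℕ)} {α : Type} [Primcodable α] {h : ℕ × ℕ × ℕ → ℕ} (hh : CI O h)
    {f g k : α → ℕ} (hf : CI O f) (hg : CI O g) (hk : CI O k) :
    CI O (fun a => h (f a, g a, k a)) := by
  have h2 : CI O (fun n : ℕ => h (n.unpair.1, n.unpair.2.unpair)) :=
    hh.comp_computable ((Computable.fst.comp Computable.unpair).pair
      (Computable.unpair.comp (Computable.snd.comp Computable.unpair)))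
  refine (CI.comp h2 (CI.npair hf (CI.npair hg hk))).congr fun a => ?_
  simp only [Nat.unpair_pair]

theorem DI.app2 {O : Set (ℕ →. ℕ)} {α : Type} [Primcodable α] {p : ℕ × ℕ → Prop} (hp : DI O p)
    {f g : α → ℕ} (hf : CI O f) (hg : CI O g) : DI O (fun a => p (f a, g a)) := by
  obtain ⟨k, hk, h1, h2⟩ := hp
  exact ⟨fun a => k (f a, g a), CI.app2 hk hf hg, fun a => h1 _, fun a => h2 _⟩

theorem DI.app3 {O : Set (ℕ →. ℕ)} {α : Type} [Primcodable α] {p : ℕ × ℕ × ℕ → Prop}
    (hp : DI O p) {f g k : α → ℕ} (hf : CI O f) (hg : CI O g) (hk : CI O k) :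
    DI O (fun a => p (f a, g a, k a)) := by
  obtain ⟨q, hq, h1, h2⟩ := hp
  exact ⟨fun a => q (f a, g a, k a), CI.app3 hq hf hg hk, fun a => h1 _, fun a => h2 _⟩

theorem DI.or {O : Set (ℕ →. ℕ)} {α : Type} [Primcodable α] {p q : α → Prop} (hp : DI O p)
    (hq : DI O q) : DI O (fun a => p a ∨ q a) := by
  refine (DI.not (hp.not.and hq.not)).of_iff fun a => ?_
  tauto

theorem CI.ite {O : Set (ℕ →. ℕ)} {α : Type} [Primcodable α] {p : α → Prop} [DecidablePred p]
    (hp : DI O p) {f g : α → ℕ} (hf : CI O f) (hg : CI O g) :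
    CI O (fun a => if p a then f a else g a) := by
  have h1 := hp.ci
  refine ((h1.mul hf).add (((CI.const 1).tsub h1).mul hg)).congr fun a => ?_
  by_cases h : p a
  · simp only [if_pos h]; simp
  · simp only [if_neg h]; simp

end Pool.Agent.GammaZero

namespace Pool.Agent.Mart

open Pool.Agent.GammaZero Encodable
open Nat.Partrec (Code)

/-- Turing reducibility of reals -/
def TR (A B : ℕ → Bool) : Prop := Nat.RecursiveIn {orc B} (orc A)

theorem tr_iff_ci {A B : ℕ → Bool} : TR A B ↔ CI {orc B} (fun n => (A n).toNat) := by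
  constructor
  · intro h
    exact ⟨fun n => (A n).toNat, h, fun _ => rfl⟩
  · rintro ⟨F, hF, hFe⟩
    have : F = fun n => (A n).toNat := funext fun n => hFe n
    rw [this] at hF
    exact hF

theorem rin_singleton {O : Set (ℕ →. ℕ)} {A B : ℕ → Bool} (h : TR A B)
    (hB : Nat.RecursiveIn O (orc B)) : Nat.RecursiveIn O (orc A) :=
  h.subst fun g hg => by
    rw [Set.mem_singleton_iff] at hg
    subst hg
    exact hB

theorem TR.refl (A : ℕ → Bool) : TR A A := Nat.RecursiveIn.oracle _ rfl

theorem TR.trans {A B C : ℕ → Bool} (h : TR A B) (h' : TR B C) : TR A C := rin_singleton h h'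

theorem ci_tr {A B : ℕ → Bool} {α : Type} [Primcodable α] {f : α → ℕ} (h : CI {orc A} f)
    (h' : TR A B) : CI {orc B} f :=
  CI_subst h fun g hg => by
    rw [Set.mem_singleton_iff] at hg
    subst hg
    exact h'

theorem di_tr {A B : ℕ → Bool} {α : Type} [Primcodable α] {p : α → Prop} (h : DI {orc A} p)
    (h' : TR A B) : DI {orc B} p :=
  DI_subst h fun g hg => by
    rw [Set.mem_singleton_iff] at hg
    subst hg
    exact h'

theorem ci_orc (A : ℕ → Bool) : CI {orc A} (fun n => (A n).toNat) := tr_iff_ci.1 (TR.refl A)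

theorem ci_orc_comp {B : ℕ → Bool} {O : Set (ℕ →. ℕ)} (hB : Nat.RecursiveIn O (orc B)) {α : Type}
    [Primcodable α] {f : α → ℕ} (hf : CI O f) : CI O (fun a => (B (f a)).toNat) :=
  CI.comp (f := fun n => (B n).toNat) ⟨_, hB, fun _ => rfl⟩ hf

/-! ### iterated searches -/

/-- list entry -/
def lget (n k : ℕ) : ℕ := ((Denumerable.ofNat (List ℕ) n)[k]?).getD 0

theorem lget_computable : Computable₂ lget := by
  have h1 : Computable₂ fun n k : ℕ => (Denumerable.ofNat (List ℕ) n)[k]? :=
    Computable.list_getElem?.comp ((Computable.ofNat (List ℕ)).comp Computable.fst)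
      Computable.snd
  exact Computable.option_getD h1 (Computable.const 0)

theorem lget_encode (l : List ℕ) (k : ℕ) : lget (encode l) k = (l[k]?).getD 0 := by
  unfold lget
  rw [Denumerable.ofNat_encode]

/-- iterated search: if at the `i`-th stage, in state `s i`, every witness `w` found leads to the
state `s (i+1)`, then `s` is computable -/
theorem iter_search {O : Set (ℕ →. ℕ)} {P : ℕ × ℕ × ℕ → Prop} (hP : DI O P)
    {nxt : ℕ × ℕ × ℕ → ℕ} (hn : CI O nxt) (s : ℕ → ℕ) (hex : ∀ i, ∃ w, P (i, s i, w))
    (hnx : ∀ i w, P (i, s i, w) → nxt (i, s i, w) = s (i + 1)) : CI O s := by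
  classical
  -- states along a list of witnesses
  let st : ℕ × ℕ → ℕ := fun p => Nat.rec (s 0) (fun k ih => nxt (k, ih, lget p.1 k)) p.2
  have hst0 : ∀ n, st (n, 0) = s 0 := fun _ => rfl
  have hst1 : ∀ n k, st (n, k + 1) = nxt (k, st (n, k), lget n k) := fun _ _ => rfl
  have hst : CI O st := by
    have h1 : CI O (fun p : ℕ × ℕ × ℕ => nxt (p.2.1, p.2.2, lget p.1 p.2.1)) :=
      CI.app3 hn (CI.of_computable (Computable.fst.comp Computable.snd))
        (CI.of_computable (Computable.snd.comp Computable.snd))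
        (CI.of_computable (lget_computable.comp Computable.fst
          (Computable.fst.comp Computable.snd)))
    exact CI.natRec (CI.const (s 0)) h1
  let Q : ℕ × ℕ → Prop := fun p => ∀ k < p.1, P (k, st (p.2, k), lget p.2 k)
  have hQ : DI O Q := by
    have h1 : DI O (fun q : (ℕ × ℕ) × ℕ => P (q.2, st (q.1.2, q.2), lget q.1.2 q.2)) := by
      refine DI.app3 hP (CI.of_computable Computable.snd) ?_ (CI.of_computable
        (lget_computable.comp (Computable.snd.comp Computable.fst) Computable.snd))
      exact CI.app2 hst (CI.of_computable (Computable.snd.comp Computable.fst))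
        (CI.of_computable Computable.snd)
    exact DI.ball h1 (CI.of_computable Computable.fst)
  choose w hw using hex
  have hstep : ∀ n i, Q (i, n) → ∀ k ≤ i, st (n, k) = s k := by
    intro n i hQ k
    induction k with
    | zero => intro _; rfl
    | succ k ih =>
      intro hk
      have h1 := ih (by omega)
      have h2 := hQ k (by omega)
      show nxt (k, st (n, k), lget n k) = _
      have h2' : P (k, st (n, k), lget n k) := h2
      rw [h1] at h2' ⊢
      exact hnx k _ h2'
  have hexQ : ∀ i, ∃ n, Q (i, n) := by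
    intro i
    refine ⟨encode ((List.range i).map w), ?_⟩
    have h3 : ∀ k < i, lget (encode ((List.range i).map w)) k = w k := by
      intro k hk
      rw [lget_encode]
      simp [hk]
    have h4 : ∀ k ≤ i, st (encode ((List.range i).map w), k) = s k := by
      intro k
      induction k with
      | zero => intro _; rfl
      | succ k ih =>
        intro hk
        rw [hst1, ih (by omega), h3 k (by omega)]
        exact hnx k _ (hw k)
    intro k hk
    show P (k, st (encode ((List.range i).map w), k), lget (encode ((List.range i).map w)) k)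
    rw [h4 k (le_of_lt hk), h3 k hk]
    exact hw k
  obtain ⟨c, hc, hcQ⟩ := choice hQ hexQ
  refine (CI.app2 hst hc (CI.of_computable Computable.id)).congr fun i => ?_
  exact (hstep (c i) i (hcQ i) i le_rfl).symm

/-! ### joins -/

/-- a real coding five reals -/
def join5 (Y : ℕ → ℕ → Bool) (n : ℕ) : Bool := Y (n % 5) (n / 5)

theorem join5_get (Y : ℕ → ℕ → Bool) (k j : ℕ) (hj : j < 5) : join5 Y (5 * k + j) = Y j k := by
  unfold join5
  have h1 : (5 * k + j) % 5 = j := by omega
  have h2 : (5 * k + j) / 5 = k := by omega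
  rw [h1, h2]

theorem join5_tr {Y : ℕ → ℕ → Bool} {c : ℕ → Bool} (h : ∀ j < 5, TR (Y j) c) :
    TR (join5 Y) c := by
  rw [tr_iff_ci]
  have hd : ∀ j, j < 5 → CI {orc c} (fun n : ℕ => (Y j (n / 5)).toNat) := by
    intro j hj
    exact ci_orc_comp (h j hj) (CI.div (CI.of_computable Computable.id) (CI.const 5))
  have hm : ∀ j : ℕ, DI {orc c} (fun n : ℕ => n % 5 = j) := fun j =>
    DI.eq (CI.mod (CI.of_computable Computable.id) (CI.const 5)) (CI.const j)
  refine (CI.ite (hm 0) (hd 0 (by omega)) (CI.ite (hm 1) (hd 1 (by omega))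
    (CI.ite (hm 2) (hd 2 (by omega)) (CI.ite (hm 3) (hd 3 (by omega))
      (hd 4 (by omega)))))).congr fun n => ?_
  unfold join5
  have h5 : n % 5 < 5 := Nat.mod_lt _ (by norm_num)
  by_cases h0 : n % 5 = 0
  · rw [if_pos h0, h0]
  rw [if_neg h0]
  by_cases h1 : n % 5 = 1
  · rw [if_pos h1, h1]
  rw [if_neg h1]
  by_cases h2 : n % 5 = 2
  · rw [if_pos h2, h2]
  rw [if_neg h2]
  by_cases h3 : n % 5 = 3
  · rw [if_pos h3, h3]
  rw [if_neg h3]
  have h4 : n % 5 = 4 := by omega
  rw [h4]

/-- countable join -/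
def cjoin (Y : ℕ → ℕ → Bool) (n : ℕ) : Bool := Y n.unpair.1 n.unpair.2

theorem tr_cjoin (Y : ℕ → ℕ → Bool) (j : ℕ) : TR (Y j) (cjoin Y) := by
  rw [tr_iff_ci]
  refine (ci_orc_comp (TR.refl (cjoin Y)) (CI.npair (CI.const j)
    (CI.of_computable Computable.id))).congr fun n => ?_
  unfold cjoin
  simp only [Nat.unpair_pair]
  rfl

/-- binary join -/
def bjoin (A B : ℕ → Bool) (n : ℕ) : Bool := if n % 2 = 0 then A (n / 2) else B (n / 2)

theorem tr_bjoin_left (A B : ℕ → Bool) : TR A (bjoin A B) := by
  rw [tr_iff_ci]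
  refine (ci_orc_comp (TR.refl (bjoin A B)) (CI.mul (CI.const 2)
    (CI.of_computable Computable.id))).congr fun n => ?_
  unfold bjoin
  have h1 : 2 * (id n) % 2 = 0 := by simp
  have h2 : 2 * (id n) / 2 = n := by simp
  rw [if_pos h1, h2]

theorem tr_bjoin_right (A B : ℕ → Bool) : TR B (bjoin A B) := by
  rw [tr_iff_ci]
  refine (ci_orc_comp (TR.refl (bjoin A B)) (CI.add (CI.mul (CI.const 2)
    (CI.of_computable Computable.id)) (CI.const 1))).congr fun n => ?_
  unfold bjoin
  have h1 : ¬ (2 * (id n) + 1) % 2 = 0 := by simp only [id]; omega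
  have h2 : (2 * (id n) + 1) / 2 = n := by simp only [id]; omega
  rw [if_neg h1, h2]

theorem bjoin_tr {A B C : ℕ → Bool} (hA : TR A C) (hB : TR B C) : TR (bjoin A B) C := by
  rw [tr_iff_ci]
  refine (CI.ite (DI.eq (CI.mod (CI.of_computable Computable.id) (CI.const 2)) (CI.const 0))
    (ci_orc_comp hA (CI.div (CI.of_computable Computable.id) (CI.const 2)))
    (ci_orc_comp hB (CI.div (CI.of_computable Computable.id) (CI.const 2)))).congr fun n => ?_
  unfold bjoin
  simp only [id]
  split_ifs <;> rfl

/-! ### initial segments -/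

theorem pre_succ (x : ℕ → Bool) (n : ℕ) : pre x (n + 1) = pre x n ++ [x n] := by
  unfold pre
  rw [List.range_succ, List.map_append]
  rfl

/-- decoding of strings -/
def dl (c : ℕ) : List Bool := (decode c : Option (List Bool)).getD []

theorem dl_encode (l : List Bool) : dl (encode l) = l := by
  unfold dl
  rw [encodek]
  rfl

theorem dl_computable : Computable dl :=
  Computable.option_getD Computable.decode (Computable.const [])

theorem ci_pre (x : ℕ → Bool) : CI {orc x} (fun n => encode (pre x n)) := by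
  have h1 : CI {orc x} (fun p : ℕ × ℕ × ℕ =>
      encode (dl p.2.2 ++ [decide ((x p.2.1).toNat = 1)])) := by
    have h2 : Computable₂ fun (c b : ℕ) => encode (dl c ++ [decide (b = 1)]) := by
      have h3 : Computable fun p : ℕ × ℕ => decide (p.2 = 1) :=
        ((Primrec.eq.comp Primrec.snd (Primrec.const 1)).decide).to_comp
      have h4 : Computable fun p : ℕ × ℕ => dl p.1 := dl_computable.comp Computable.fst
      exact Computable.encode.comp (Computable.list_append.comp h4
        (Computable.list_cons.comp h3 (Computable.const [])))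
    exact CI.comp₂ (h := fun c b => encode (dl c ++ [decide (b = 1)]))
      h2 (CI.of_computable (Computable.snd.comp Computable.snd))
      (ci_orc_comp (TR.refl x) (CI.of_computable (Computable.fst.comp Computable.snd)))
  have h2 := CI.sub (CI.natRec (CI.const (O := {orc x}) (α := ℕ) (encode ([] : List Bool))) h1)
    (CI.of_computable Computable.id)
  refine h2.congr fun n => ?_
  show encode (pre x n) = Nat.rec (encode ([] : List Bool)) (fun y ih =>
      encode (dl ih ++ [decide ((x y).toNat = 1)])) n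
  induction n with
  | zero => rfl
  | succ n ih =>
    rw [pre_succ]
    show _ = encode (dl (Nat.rec (encode ([] : List Bool)) (fun y ih =>
      encode (dl ih ++ [decide ((x y).toNat = 1)])) n) ++ [decide ((x n).toNat = 1)])
    rw [← ih, dl_encode]
    cases x n <;> rfl

/-! ### indices -/

/-- bounded evaluation, as a function of a code of (steps, program), input -/
def evN (m : ℕ) : ℕ :=
  encode (Code.evaln m.unpair.1.unpair.1 (Denumerable.ofNat Code m.unpair.1.unpair.2) m.unpair.2)

theorem evN_computable : Computable evN := by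
  have h2 : Computable fun m : ℕ =>
      ((m.unpair.1.unpair.1, Denumerable.ofNat Code m.unpair.1.unpair.2), m.unpair.2) := by
    refine Computable.pair (Computable.pair ?_ ?_) ?_
    · exact Computable.fst.comp (Computable.unpair.comp (Computable.fst.comp Computable.unpair))
    · exact (Computable.ofNat Code).comp
        (Computable.snd.comp (Computable.unpair.comp (Computable.fst.comp Computable.unpair)))
    · exact Computable.snd.comp Computable.unpair
  exact Computable.encode.comp (Code.primrec_evaln.to_comp.comp h2)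

/-- result of program `e` with oracle `x` on input `k` after `s` steps (`0` if none, `v + 1` if the
value is `v`) -/
def res (x : ℕ → Bool) (e k s : ℕ) : ℕ :=
  evN (Nat.pair (Nat.pair s.unpair.2 e) (Nat.pair (encode (pre x s.unpair.1)) k))

theorem res_eq (x : ℕ → Bool) (e k s : ℕ) : res x e k s =
    encode (Code.evaln s.unpair.2 (Denumerable.ofNat Code e)
      (Nat.pair (encode (pre x s.unpair.1)) k)) := by
  unfold res evN
  simp only [Nat.unpair_pair]

theorem ci_res (x : ℕ → Bool) : CI {orc x} (fun p : ℕ × ℕ × ℕ => res x p.1 p.2.1 p.2.2) := by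
  refine CI.computable_comp evN_computable (CI.npair (CI.npair (CI.of_computable ?_)
    (CI.of_computable Computable.fst)) (CI.npair (CI.comp (ci_pre x) (CI.of_computable ?_))
      (CI.of_computable (Computable.fst.comp Computable.snd))))
  · exact Computable.snd.comp (Computable.unpair.comp (Computable.snd.comp Computable.snd))
  · exact Computable.fst.comp (Computable.unpair.comp (Computable.snd.comp Computable.snd))

/-- program `e` with oracle `x` on input `k` gives `v` in fewer than `t` steps -/
def U (x : ℕ → Bool) (e k t v : ℕ) : Prop :=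
  ∃ s < t, res x e k s = v + 1 ∧ ∀ s' < s, res x e k s' = 0

theorem U.mono {x : ℕ → Bool} {e k t t' v : ℕ} (h : U x e k t v) (ht : t ≤ t') :
    U x e k t' v := by
  obtain ⟨s, hs, h1, h2⟩ := h
  exact ⟨s, lt_of_lt_of_le hs ht, h1, h2⟩

theorem U.unique {x : ℕ → Bool} {e k t t' v v' : ℕ} (h : U x e k t v) (h' : U x e k t' v') :
    v = v' := by
  obtain ⟨s, hs, h1, h2⟩ := h
  obtain ⟨s', hs', h1', h2'⟩ := h'
  rcases lt_trichotomy s s' with h | h | h
  · have := h2' s h
    omega
  · subst h
    omega
  · have := h2 s' h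
    omega

/-- `U` is decidable in the oracle; arguments `(e, k), (t, v)` -/
theorem di_U (x : ℕ → Bool) : DI {orc x} (fun p : (ℕ × ℕ) × ℕ × ℕ => U x p.1.1 p.1.2 p.2.1 p.2.2) := by
  have h1 : DI {orc x} (fun q : (((ℕ × ℕ) × ℕ × ℕ) × ℕ) × ℕ =>
      res x q.1.1.1.1 q.1.1.1.2 q.2 = 0) := by
    refine DI.eq (CI.app3 (ci_res x) (CI.of_computable ?_) (CI.of_computable ?_)
      (CI.of_computable Computable.snd)) (CI.const 0)
    · exact Computable.fst.comp (Computable.fst.comp (Computable.fst.comp Computable.fst))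
    · exact Computable.snd.comp (Computable.fst.comp (Computable.fst.comp Computable.fst))
  have h2 : DI {orc x} (fun q : ((ℕ × ℕ) × ℕ × ℕ) × ℕ =>
      ∀ s' < q.2, res x q.1.1.1 q.1.1.2 s' = 0) := DI.ball h1 (CI.of_computable Computable.snd)
  have h3 : DI {orc x} (fun q : ((ℕ × ℕ) × ℕ × ℕ) × ℕ =>
      res x q.1.1.1 q.1.1.2 q.2 = q.1.2.2 + 1) := by
    refine DI.eq (CI.app3 (ci_res x) (CI.of_computable ?_) (CI.of_computable ?_)
      (CI.of_computable Computable.snd)) (CI.add (CI.of_computable ?_) (CI.const 1))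
    · exact Computable.fst.comp (Computable.fst.comp Computable.fst)
    · exact Computable.snd.comp (Computable.fst.comp Computable.fst)
    · exact Computable.snd.comp (Computable.snd.comp Computable.fst)
  exact DI.bex (h3.and h2) (CI.of_computable (Computable.fst.comp Computable.snd))

/-- application of `U` to computed arguments -/
theorem DI.U {x : ℕ → Bool} {O : Set (ℕ →. ℕ)} (hx : Nat.RecursiveIn O (orc x)) {α : Type}
    [Primcodable α] {e k t v : α → ℕ} (he : CI O e) (hk : CI O k) (ht : CI O t) (hv : CI O v) :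
    DI O (fun a => U x (e a) (k a) (t a) (v a)) := by
  have h0 : DI O (fun p : (ℕ × ℕ) × ℕ × ℕ => Mart.U x p.1.1 p.1.2 p.2.1 p.2.2) :=
    DI_subst (di_U x) fun g hg => by
      rw [Set.mem_singleton_iff] at hg
      subst hg
      exact hx
  have h1 : DI O (fun p : ℕ × ℕ => Mart.U x p.1.unpair.1 p.1.unpair.2 p.2.unpair.1 p.2.unpair.2) :=
    h0.comp_computable (Computable.pair (Computable.unpair.comp Computable.fst)
      (Computable.unpair.comp Computable.snd))
  refine (DI.app2 h1 (CI.npair he hk) (CI.npair ht hv)).of_iff fun a => ?_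
  simp only [Nat.unpair_pair]

/-- `e` is an index of `y` relative to `x` -/
def Idx (x : ℕ → Bool) (e : ℕ) (y : ℕ → Bool) : Prop := ∀ k, ∃ t, U x e k t (y k).toNat

theorem exists_idx {x y : ℕ → Bool} (h : TR y x) : ∃ e, Idx x e y := by
  obtain ⟨E, hE, hm, ha⟩ := exists_E h
  obtain ⟨e, rfl⟩ := EE_surj hE
  refine ⟨e, fun k => ?_⟩
  have hv : (y k).toNat ∈ orc y k := Part.mem_some _
  obtain ⟨n, hn⟩ := (ha k _).1 hv
  obtain ⟨t, ht⟩ := Code.evaln_complete.1 hn
  have hex : ∃ s, res x e k s ≠ 0 := by
    refine ⟨Nat.pair n t, ?_⟩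
    rw [res_eq, Nat.unpair_pair]
    have ht' : Code.evaln t (Denumerable.ofNat Code e) (Nat.pair (encode (pre x n)) k) =
      some (y k).toNat := ht
    show encode (Code.evaln t (Denumerable.ofNat Code e) (Nat.pair (encode (pre x n)) k)) ≠ 0
    rw [ht']
    simp
  classical
  obtain ⟨v, hv1⟩ : ∃ v, res x e k (Nat.find hex) = v + 1 :=
    Nat.exists_eq_succ_of_ne_zero (Nat.find_spec hex)
  refine ⟨Nat.find hex + 1, Nat.find hex, Nat.lt_succ_self _, ?_, ?_⟩
  · rw [hv1]
    congr 1
    rw [res_eq] at hv1
    have h1 : v ∈ Code.evaln (Nat.find hex).unpair.2 (Denumerable.ofNat Code e)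
        (Nat.pair (encode (pre x (Nat.find hex).unpair.1)) k) := by
      rcases hr : Code.evaln (Nat.find hex).unpair.2 (Denumerable.ofNat Code e)
        (Nat.pair (encode (pre x (Nat.find hex).unpair.1)) k) with _ | v'
      · rw [hr] at hv1
        simp at hv1
      · rw [hr] at hv1
        simp only [encode_some, encode_nat, Nat.succ_eq_add_one, add_left_inj] at hv1
        rw [hv1]
        rfl
    have h2 : v ∈ EE e (pre x (Nat.find hex).unpair.1) k := Code.evaln_sound h1
    have h3 : v ∈ orc y k := (ha k v).2 ⟨_, h2⟩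
    exact Part.mem_some_iff.1 h3
  · intro s' hs'
    exact not_not.1 (Nat.find_min hex hs')

end Pool.Agent.Mart
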