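import Pool.Agent.Lib.MP_d1129e_lc.Cont
import Pool.Agent.Lib.MP_d1129e_lc.Perfect

/-!
Borel functions which are eventually increasing with a Borel modulus satisfy the conclusion of
the first part of Martin's conjecture.
-/

set_option autoImplicit false

namespace Pool.Agent.Mart

open Pool.Agent.GammaZero Encodable

/-- the conclusion of the conjecture, for a function eventually increasing with a universally
measurable modulus -/
theorem martin_of_modulus {φ h : (ℕ → Bool) → (ℕ → Bool)} (hφ : Measurable φ)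
    (hh : ∀ μ : MeasureTheory.Measure (ℕ → Bool), MeasureTheory.IsFiniteMeasure μ →
      AEMeasurable h μ) {C : ℕ → Bool}
    (hinc : ∀ A B, TR C A → TR (h A) B → TR (φ A) (φ B)) :
    (∃ C' D, ∀ A, TR C' A → TR (φ A) D ∧ TR D (φ A)) ∨ ∃ C', ∀ A, TR C' A → TR A (φ A) := by
  by_cases hcount : (φ '' {A | TR C A}).Countable
  · left
    obtain ⟨f, hf⟩ := hcount.exists_eq_range ⟨φ C, C, TR.refl C, rfl⟩
    have h1 : ∀ n, ∃ A, TR C A ∧ φ A = f n := by
      intro n
      have h2 : f n ∈ φ '' {A | TR C A} := by rw [hf]; exact Set.mem_range_self n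
      exact h2
    choose A hA hAf using h1
    refine ⟨bjoin C (cjoin fun n => h (A n)), φ (bjoin C (cjoin fun n => h (A n))), ?_⟩
    have h3 : ∀ B, TR (bjoin C (cjoin fun n => h (A n))) B → ∀ n, TR (f n) (φ B) := by
      intro B hB n
      rw [← hAf n]
      exact hinc _ _ (hA n) (((tr_cjoin (fun n => h (A n)) n).trans
        (tr_bjoin_right _ _)).trans hB)
    have h4 : ∀ B, TR C B → ∃ n, φ B = f n := by
      intro B hB
      have h5 : φ B ∈ Set.range f := by rw [← hf]; exact ⟨B, hB, rfl⟩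
      obtain ⟨n, hn⟩ := h5
      exact ⟨n, hn.symm⟩
    intro B hB
    obtain ⟨n, hn⟩ := h4 B ((tr_bjoin_left _ _).trans hB)
    obtain ⟨m, hm⟩ := h4 (bjoin C (cjoin fun n => h (A n))) (tr_bjoin_left _ _)
    refine ⟨?_, ?_⟩
    · rw [hn]
      exact h3 _ (TR.refl _) n
    · rw [hm]
      exact h3 B hB m
  · right
    obtain ⟨e, -, heS, hψ, hη, hinj⟩ := exists_perfect_ae hφ hh (measurable_cone C) hcount
    obtain ⟨p2, hp2⟩ := cont_param hη
    let B0 : ℕ → Bool := bjoin C (cjoin fun n => h (e (ext (dl n))))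
    have hB0 : ∀ σ : List Bool, TR (h (e (ext σ))) B0 := by
      intro σ
      have h1 := tr_cjoin (fun n => h (e (ext (dl n)))) (encode σ)
      simp only [dl_encode] at h1
      exact h1.trans (tr_bjoin_right _ _)
    have hx : ∀ σ : List Bool, TR (φ (e (ext σ))) (φ B0) :=
      fun σ => hinc _ _ (heS _) (hB0 σ)
    obtain ⟨p, hp⟩ := coding hψ hinj hx
    refine ⟨bjoin (bjoin p p2) (h B0), fun c hc => ?_⟩
    have hpc : TR p c := ((tr_bjoin_left p p2).trans (tr_bjoin_left _ _)).trans hc
    have hp2c : TR p2 c := ((tr_bjoin_right p p2).trans (tr_bjoin_left _ _)).trans hc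
    have hBc : TR (h B0) c := (tr_bjoin_right _ _).trans hc
    obtain ⟨α, hα, hz⟩ := hp c
    refine hz.trans (WW_tr ?_ fun j _ => ?_)
    · exact hinc _ _ (tr_bjoin_left _ _) hBc
    · exact hinc _ _ (heS _) (hp2 _ _ hp2c (hα j c hpc (TR.refl c)))

/-- conversely, the conclusion of the conjecture yields a Borel modulus -/
theorem modulus_of_martin {φ : (ℕ → Bool) → (ℕ → Bool)} (hφ : Measurable φ)
    (H : (∃ C D, ∀ A, TR C A → TR (φ A) D ∧ TR D (φ A)) ∨ ∃ C, ∀ A, TR C A → TR A (φ A)) :
    ∃ (h : (ℕ → Bool) → (ℕ → Bool)) (C : ℕ → Bool), Measurable h ∧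
      ∀ A B, TR C A → TR (h A) B → TR (φ A) (φ B) := by
  rcases H with ⟨C, D, hCD⟩ | ⟨C, hC⟩
  · exact ⟨fun _ => C, C, measurable_const, fun A B hA hB => (hCD A hA).1.trans (hCD B hB).2⟩
  · refine ⟨fun A => bjoin (φ A) C, C, ?_, fun A B _ hB => ?_⟩
    · rw [measurable_pi_iff]
      intro n
      unfold bjoin
      by_cases hn : n % 2 = 0
      · simp only [if_pos hn]
        exact (measurable_pi_apply (n / 2)).comp hφ
      · simp only [if_neg hn]
        exact measurable_const
    · exact ((tr_bjoin_left _ _).trans hB).trans (hC B ((tr_bjoin_right _ _).trans hB))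

end Pool.Agent.Mart
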