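import Pool.Agent.Lib.MP_d1129e_lc.Dec

/-!
The coding lemma for a continuous injective map `ψ` on Cantor space.
-/

set_option autoImplicit false

namespace Pool.Agent.Mart

open Pool.Agent.GammaZero Encodable

/-! ### strings -/

/-- the eventually zero real extending a string -/
def ext (σ : List Bool) (n : ℕ) : Bool := (σ[n]?).getD false

/-- `α` extends the string `σ` -/
def Ext (σ : List Bool) (α : ℕ → Bool) : Prop := pre α σ.length = σ

theorem pre_length (x : ℕ → Bool) (n : ℕ) : (pre x n).length = n := by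
  unfold pre; simp

theorem pre_eq_iff (x y : ℕ → Bool) (n : ℕ) : pre x n = pre y n ↔ ∀ k < n, x k = y k := by
  constructor
  · intro h k hk
    have h1 := pre_getElem? x n k hk
    have h2 := pre_getElem? y n k hk
    rw [h, h2] at h1
    exact (Option.some.inj h1).symm
  · intro h
    unfold pre
    exact List.map_congr_left fun k hk => h k (List.mem_range.1 hk)

theorem Ext_iff (σ : List Bool) (α : ℕ → Bool) : Ext σ α ↔ ∀ k, k < σ.length → σ[k]? = some (α k) := by
  unfold Ext
  constructor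
  · intro h k hk
    have h1 := pre_getElem? α σ.length k hk
    rw [h] at h1
    exact h1
  · intro h
    refine List.ext_getElem? fun k => ?_
    rcases Nat.lt_or_ge k σ.length with hk | hk
    · rw [pre_getElem? α _ k hk, h k hk]
    · rw [pre_getElem?_none α _ k hk, List.getElem?_eq_none hk]

theorem Ext_pre (α : ℕ → Bool) (n : ℕ) : Ext (pre α n) α := by
  unfold Ext
  rw [pre_length]

theorem Ext_mono {σ τ : List Bool} {α : ℕ → Bool} (h : σ <+: τ) (hα : Ext τ α) : Ext σ α := by
  rw [Ext_iff] at hα ⊢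
  intro k hk
  obtain ⟨ρ, rfl⟩ := h
  have h1 := hα k (by rw [List.length_append]; omega)
  rw [List.getElem?_append_left hk] at h1
  exact h1

theorem Ext_ext (σ : List Bool) : Ext σ (ext σ) := by
  rw [Ext_iff]
  intro k hk
  unfold ext
  rw [List.getElem?_eq_getElem hk]
  rfl

theorem ext_ge (σ : List Bool) (n : ℕ) (h : σ.length ≤ n) : ext σ n = false := by
  unfold ext
  rw [List.getElem?_eq_none h]
  rfl

theorem prefix_pre {σ : List Bool} {α : ℕ → Bool} (h : Ext σ α) {n : ℕ} (hn : σ.length ≤ n) :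
    σ <+: pre α n := by
  have h1 := pre_prefix α hn
  unfold Ext at h
  rw [h] at h1
  exact h1

theorem ext_pre_ext (σ : List Bool) {n : ℕ} (hn : σ.length ≤ n) : ext (pre (ext σ) n) = ext σ := by
  funext k
  rcases Nat.lt_or_ge k n with hk | hk
  · show ((pre (ext σ) n)[k]?).getD false = _
    rw [pre_getElem? _ _ _ hk]
    rfl
  · rw [ext_ge _ _ (by rw [pre_length]; exact hk), ext_ge _ _ (le_trans hn hk)]

theorem Ext_iff_pre (β : ℕ → Bool) (n : ℕ) (α : ℕ → Bool) :
    Ext (pre β n) α ↔ ∀ k < n, α k = β k := by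
  unfold Ext
  rw [pre_length, pre_eq_iff]

/-! ### continuity -/

theorem cont_pre {ψ : (ℕ → Bool) → (ℕ → Bool)} (hc : Continuous ψ) (β : ℕ → Bool) (M : ℕ) :
    ∃ L, ∀ α, Ext (pre β L) α → ∀ k < M, ψ α k = ψ β k := by
  have h1 : ∀ k, ∃ L, ∀ α, Ext (pre β L) α → ψ α k = ψ β k := by
    intro k
    have h2 : Continuous fun α => ψ α k := (continuous_apply k).comp hc
    have h3 : IsOpen {α | ψ α k = ψ β k} :=
      (isOpen_discrete {ψ β k}).preimage h2
    rw [isOpen_pi_iff] at h3
    obtain ⟨I, w, hI, hw⟩ := h3 β rfl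
    refine ⟨I.sup (fun i => i + 1), fun α hα => ?_⟩
    rw [Ext_iff_pre] at hα
    apply hw
    intro i hi
    have : i < I.sup (fun i => i + 1) :=
      lt_of_lt_of_le (Nat.lt_succ_self i) (Finset.le_sup (f := fun i => i + 1) hi)
    rw [hα i this]
    exact (hI i hi).2
  choose L hL using h1
  refine ⟨(Finset.range M).sup L, fun α hα k hk => hL k α ?_⟩
  rw [Ext_iff_pre] at hα ⊢
  intro j hj
  exact hα j (lt_of_lt_of_le hj (Finset.le_sup (Finset.mem_range.2 hk)))

/-- departing from the real `ext σ` -/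
theorem depart {ψ : (ℕ → Bool) → (ℕ → Bool)} (hc : Continuous ψ) (hi : Function.Injective ψ)
    (σ : List Bool) (K : ℕ) : ∃ (σ' : List Bool) (u : ℕ), σ <+: σ' ∧ σ.length < σ'.length ∧
      K ≤ u ∧ ∀ α, Ext σ' α → (∀ k < u, ψ α k = ψ (ext σ) k) ∧ ψ α u ≠ ψ (ext σ) u := by
  classical
  obtain ⟨L, hL⟩ := cont_pre hc (ext σ) K
  have hβ : ∃ β : ℕ → Bool, (∀ k < max L σ.length, β k = ext σ k) ∧ β ≠ ext σ := by
    refine ⟨Function.update (ext σ) (max L σ.length) true, fun k hk => ?_, fun h => ?_⟩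
    · exact Function.update_of_ne (ne_of_lt hk) _ _
    · have h1 := congrFun h (max L σ.length)
      rw [Function.update_self, ext_ge _ _ (le_max_right _ _)] at h1
      cases h1
  obtain ⟨β, hβ1, hβ2⟩ := hβ
  have hne : ∃ u, ψ β u ≠ ψ (ext σ) u := by
    by_contra hcon
    push Not at hcon
    exact hβ2 (hi (funext hcon))
  obtain ⟨L', hL'⟩ := cont_pre hc β (Nat.find hne + 1)
  have hlen : σ.length ≤ max L' (max L σ.length + 1) :=
    le_trans (le_trans (le_max_right L _) (Nat.le_succ _)) (le_max_right _ _)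
  have hσβ : Ext σ β := by
    rw [Ext_iff]
    intro k hk
    rw [hβ1 k (lt_of_lt_of_le hk (le_max_right _ _))]
    exact (Ext_iff σ _).1 (Ext_ext σ) k hk
  refine ⟨pre β (max L' (max L σ.length + 1)), Nat.find hne, prefix_pre hσβ hlen, ?_, ?_, ?_⟩
  · rw [pre_length]
    exact lt_of_lt_of_le (lt_of_le_of_lt (le_max_right L _) (Nat.lt_succ_self _))
      (le_max_right _ _)
  · by_contra hK
    push Not at hK
    apply Nat.find_spec hne
    apply hL β _ _ hK
    rw [Ext_iff_pre]
    intro k hk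
    exact hβ1 k (lt_of_lt_of_le hk (le_max_left _ _))
  · intro α hα
    have h1 : ∀ k < Nat.find hne + 1, ψ α k = ψ β k := by
      apply hL'
      rw [Ext_iff_pre] at hα ⊢
      exact fun k hk => hα k (lt_of_lt_of_le hk (le_max_left _ _))
    constructor
    · intro k hk
      rw [h1 k (by omega)]
      exact not_not.1 (Nat.find_min hne hk)
    · rw [h1 _ (Nat.lt_succ_self _)]
      exact Nat.find_spec hne

/-- following the real `ext σ` -/
theorem follow {ψ : (ℕ → Bool) → (ℕ → Bool)} (hc : Continuous ψ) (σ : List Bool) (M : ℕ) :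
    ∃ σ' : List Bool, σ <+: σ' ∧ ext σ' = ext σ ∧
      ∀ α, Ext σ' α → ∀ k < M, ψ α k = ψ (ext σ) k := by
  obtain ⟨L, hL⟩ := cont_pre hc (ext σ) M
  refine ⟨pre (ext σ) (max L σ.length), prefix_pre (Ext_ext σ) (le_max_right _ _),
    ext_pre_ext σ (le_max_right _ _), fun α hα => hL α ?_⟩
  rw [Ext_iff_pre] at hα ⊢
  exact fun k hk => hα k (lt_of_lt_of_le hk (le_max_left _ _))

/-- identification of the least index -/
theorem exists_id {x y : ℕ → Bool} (h : TR y x) : ∃ e M0, Idx x e y ∧
    ∀ M ≥ M0, ∃ N0, ∀ N ≥ N0, ∀ Y : ℕ → Bool, (∀ k < M, Y k = y k) → Id1 x M N Y e := by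
  classical
  have hex := exists_idx h
  have h1 : ∀ e' < Nat.find hex, ∃ k, ∀ t, ¬ U x e' k t (y k).toNat := by
    intro e' he'
    have h2 := Nat.find_min hex he'
    unfold Idx at h2
    push Not at h2
    exact h2
  choose! kk hkk using h1
  refine ⟨Nat.find hex, (Finset.range (Nat.find hex)).sup (fun e => kk e + 1),
    Nat.find_spec hex, ?_⟩
  intro M hM
  obtain ⟨t, ht⟩ := exists_steps (Nat.find_spec hex) M
  refine ⟨t, fun N hN Y hY => ⟨?_, ?_⟩⟩
  · intro k hk
    rw [hY k hk]
    exact (ht k (le_of_lt hk)).mono hN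
  · intro e' he' hcon
    have h2 : kk e' < M := lt_of_lt_of_le (lt_of_lt_of_le (Nat.lt_succ_self _)
      (Finset.le_sup (f := fun e => kk e + 1) (Finset.mem_range.2 he'))) hM
    have h3 := hcon _ h2
    rw [hY _ h2] at h3
    exact hkk e' he' _ h3

/-! ### the table -/

/-- states: strings of the four reals, the departing group first -/
abbrev St : Type := List Bool × List Bool × List Bool × List Bool

/-- one phase: from `S` to `S'` (in which the groups are exchanged) with departures at `u`, `v` -/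
def Step (ψ : (ℕ → Bool) → (ℕ → Bool)) (x : ℕ → Bool) (S : St) (b : Bool) (S' : St)
    (u v : ℕ) : Prop :=
  (S.1 <+: S'.2.2.1 ∧ S.1.length < S'.2.2.1.length ∧
    ∀ α, Ext S'.2.2.1 α → (∀ k < u, ψ α k = ψ (ext S.1) k) ∧ ψ α u ≠ ψ (ext S.1) u) ∧
  (S.2.1 <+: S'.2.2.2 ∧ S.2.1.length < S'.2.2.2.length ∧
    ∀ α, Ext S'.2.2.2 α → (∀ k < v, ψ α k = ψ (ext S.2.1) k) ∧ ψ α v ≠ ψ (ext S.2.1) v) ∧
  (S.2.2.1 <+: S'.1 ∧ ∃ e, Idx x e (ψ (ext S'.1)) ∧
    ∀ α, Ext S'.1 α → Id1 x (min u v) (max u v) (ψ α) e) ∧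
  (S.2.2.2 <+: S'.2.1 ∧ ∃ e, Idx x e (ψ (ext S'.2.1)) ∧
    ∀ α, Ext S'.2.1 α → Id1 x (min u v) (max u v) (ψ α) e) ∧
  b = decide (u < v)

theorem exists_step {ψ : (ℕ → Bool) → (ℕ → Bool)} (hc : Continuous ψ)
    (hi : Function.Injective ψ) {x : ℕ → Bool} (hx : ∀ σ, TR (ψ (ext σ)) x) (S : St) (b : Bool) :
    ∃ S' u v, Step ψ x S b S' u v := by
  obtain ⟨a, b', c, d⟩ := S
  obtain ⟨e1, M1, he1, hM1⟩ := exists_id (hx c)
  obtain ⟨e2, M2, he2, hM2⟩ := exists_id (hx d)
  have hfin : ∀ u v : ℕ, M1 ≤ min u v → M2 ≤ min u v →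
      (∀ Y : ℕ → Bool, (∀ k < min u v, Y k = ψ (ext c) k) → Id1 x (min u v) (max u v) Y e1) →
      (∀ Y : ℕ → Bool, (∀ k < min u v, Y k = ψ (ext d) k) → Id1 x (min u v) (max u v) Y e2) →
      ∃ c' d' : List Bool, (c <+: c' ∧ ∃ e, Idx x e (ψ (ext c')) ∧
        ∀ α, Ext c' α → Id1 x (min u v) (max u v) (ψ α) e) ∧
      (d <+: d' ∧ ∃ e, Idx x e (ψ (ext d')) ∧
        ∀ α, Ext d' α → Id1 x (min u v) (max u v) (ψ α) e) := by
    intro u v _ _ h1 h2
    obtain ⟨c', hc1, hc2, hc3⟩ := follow hc c (min u v)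
    obtain ⟨d', hd1, hd2, hd3⟩ := follow hc d (min u v)
    refine ⟨c', d', ⟨hc1, e1, by rw [hc2]; exact he1, fun α hα => h1 _ (hc3 α hα)⟩,
      hd1, e2, by rw [hd2]; exact he2, fun α hα => h2 _ (hd3 α hα)⟩
  cases b with
  | true =>
    obtain ⟨a', u, ha1, ha2, ha3, ha4⟩ := depart hc hi a (max M1 M2)
    obtain ⟨N1, hN1⟩ := hM1 u (le_trans (le_max_left _ _) ha3)
    obtain ⟨N2, hN2⟩ := hM2 u (le_trans (le_max_right _ _) ha3)
    obtain ⟨b'', v, hb1, hb2, hb3, hb4⟩ := depart hc hi b' (max (max N1 N2) (u + 1))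
    have huv : u < v := lt_of_lt_of_le (Nat.lt_succ_self u) (le_trans (le_max_right _ _) hb3)
    have hmin : min u v = u := min_eq_left (le_of_lt huv)
    have hmax : max u v = v := max_eq_right (le_of_lt huv)
    have hv1 : N1 ≤ v := le_trans (le_trans (le_max_left _ _) (le_max_left _ _)) hb3
    have hv2 : N2 ≤ v := le_trans (le_trans (le_max_right _ _) (le_max_left _ _)) hb3
    obtain ⟨c', d', h3, h4⟩ := hfin u v (by rw [hmin]; exact le_trans (le_max_left _ _) ha3)
      (by rw [hmin]; exact le_trans (le_max_right _ _) ha3)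
      (by rw [hmin, hmax]; exact hN1 v hv1) (by rw [hmin, hmax]; exact hN2 v hv2)
    exact ⟨(c', d', a', b''), u, v, ⟨ha1, ha2, ha4⟩, ⟨hb1, hb2, hb4⟩, h3, h4,
      (decide_eq_true huv).symm⟩
  | false =>
    obtain ⟨b'', v, hb1, hb2, hb3, hb4⟩ := depart hc hi b' (max M1 M2)
    obtain ⟨N1, hN1⟩ := hM1 v (le_trans (le_max_left _ _) hb3)
    obtain ⟨N2, hN2⟩ := hM2 v (le_trans (le_max_right _ _) hb3)
    obtain ⟨a', u, ha1, ha2, ha3, ha4⟩ := depart hc hi a (max (max N1 N2) (v + 1))
    have huv : v < u := lt_of_lt_of_le (Nat.lt_succ_self v) (le_trans (le_max_right _ _) ha3)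
    have hmin : min u v = v := min_eq_right (le_of_lt huv)
    have hmax : max u v = u := max_eq_left (le_of_lt huv)
    have hv1 : N1 ≤ u := le_trans (le_trans (le_max_left _ _) (le_max_left _ _)) ha3
    have hv2 : N2 ≤ u := le_trans (le_trans (le_max_right _ _) (le_max_left _ _)) ha3
    obtain ⟨c', d', h3, h4⟩ := hfin u v (by rw [hmin]; exact le_trans (le_max_left _ _) hb3)
      (by rw [hmin]; exact le_trans (le_max_right _ _) hb3)
      (by rw [hmin, hmax]; exact hN1 u hv1) (by rw [hmin, hmax]; exact hN2 u hv2)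
    exact ⟨(c', d', a', b''), u, v, ⟨ha1, ha2, ha4⟩, ⟨hb1, hb2, hb4⟩, h3, h4,
      (decide_eq_false (by omega)).symm⟩

/-! ### tables as reals -/

/-- a real computing a given function -/
theorem exists_table (t : ℕ → ℕ) : ∃ p : ℕ → Bool, CI {orc p} t := by
  classical
  let p : ℕ → Bool := fun n => decide (t n.unpair.1 = n.unpair.2)
  refine ⟨p, ?_⟩
  have h1 : DI {orc p} (fun q : ℕ × ℕ => (p (Nat.pair q.1 q.2)).toNat = 1) :=
    DI.eq (ci_orc_comp (TR.refl p) (CI.npair (CI.of_computable Computable.fst)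
      (CI.of_computable Computable.snd))) (CI.const 1)
  have h2 : ∀ n m, (p (Nat.pair n m)).toNat = 1 ↔ t n = m := by
    intro n m
    simp only [p, Nat.unpair_pair]
    by_cases h : t n = m
    · simp [h]
    · simp [h]
  obtain ⟨c, hc, hc2⟩ := choice h1 (fun n => ⟨t n, (h2 _ _).2 rfl⟩)
  exact hc.congr fun n => (h2 _ _).1 (hc2 n)

/-- limit of a chain of strings -/
def lim (c : ℕ → List Bool) (n : ℕ) : Bool := ((c (n + 1))[n]?).getD false

theorem Ext_lim (c : ℕ → List Bool) (h : ∀ i, c i <+: c (i + 1))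
    (hl : ∀ i, (c i).length < (c (i + 1)).length) (i : ℕ) : Ext (c i) (lim c) := by
  have hmono : ∀ i j, i ≤ j → c i <+: c j := by
    intro i j hij
    induction j, hij using Nat.le_induction with
    | base => exact List.prefix_refl _
    | succ j _ ih => exact ih.trans (h j)
  have hlen : ∀ i, i ≤ (c i).length := by
    intro i
    induction i with
    | zero => exact Nat.zero_le _
    | succ i ih => exact lt_of_le_of_lt ih (hl i)
  rw [Ext_iff]
  intro k hk
  unfold lim
  have h1 : k < (c (k + 1)).length := hlen (k + 1)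
  have h2 : (c (k + 1))[k]? = (c i)[k]? := by
    rcases le_total i (k + 1) with hik | hik
    · obtain ⟨r, hr⟩ := hmono _ _ hik
      rw [← hr, List.getElem?_append_left hk]
    · obtain ⟨r, hr⟩ := hmono _ _ hik
      rw [← hr, List.getElem?_append_left h1]
  rw [h2, List.getElem?_eq_getElem hk]
  rfl

/-- the coding lemma -/
theorem coding {ψ : (ℕ → Bool) → (ℕ → Bool)} (hc : Continuous ψ) (hi : Function.Injective ψ)
    {x : ℕ → Bool} (hx : ∀ σ, TR (ψ (ext σ)) x) :
    ∃ p : ℕ → Bool, ∀ z : ℕ → Bool, ∃ α : ℕ → ℕ → Bool,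
      (∀ j c, TR p c → TR z c → TR (α j) c) ∧ TR z (WW x fun j => ψ (α j)) := by
  have hstep := exists_step hc hi hx
  choose T u v hT using hstep
  let t : ℕ → ℕ := fun n =>
    encode (T ((decode n : Option (St × Bool)).getD (default, false)).1
      ((decode n : Option (St × Bool)).getD (default, false)).2)
  have ht : ∀ (S : St) (b : Bool), t (Nat.pair (encode S) b.toNat) = encode (T S b) := by
    intro S b
    have h1 : Nat.pair (encode S) b.toNat = encode (S, b) := by cases b <;> rfl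
    simp only [t, h1, encodek, Option.getD_some]
  obtain ⟨p, hp⟩ := exists_table t
  refine ⟨p, fun z => ?_⟩
  let s : ℕ → St := fun n => Nat.rec (([], [], [], []) : St) (fun i S => T S (z i)) n
  have hs : ∀ i, Step ψ x (s i) (z i) (s (i + 1)) (u (s i) (z i)) (v (s i) (z i)) :=
    fun i => hT (s i) (z i)
  let cc : ℕ → ℕ → List Bool := fun j i =>
    if j = 0 then (s (2 * i)).1 else if j = 1 then (s (2 * i)).2.1
      else if j = 2 then (s (2 * i)).2.2.1 else (s (2 * i)).2.2.2
  let α : ℕ → ℕ → Bool := fun j => lim (cc j)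
  -- growth
  have e2 : ∀ i, 2 * (i + 1) = 2 * i + 1 + 1 := fun i => by ring
  have g0 : ∀ i, (s (2 * i)).1 <+: (s (2 * (i + 1))).1 ∧
      (s (2 * i)).1.length < (s (2 * (i + 1))).1.length := by
    intro i
    have h1 := (hs (2 * i)).1
    have h2 := (hs (2 * i + 1)).2.2.1
    rw [e2]
    exact ⟨h1.1.trans h2.1, lt_of_lt_of_le h1.2.1 h2.1.length_le⟩
  have g1 : ∀ i, (s (2 * i)).2.1 <+: (s (2 * (i + 1))).2.1 ∧
      (s (2 * i)).2.1.length < (s (2 * (i + 1))).2.1.length := by
    intro i
    have h1 := (hs (2 * i)).2.1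
    have h2 := (hs (2 * i + 1)).2.2.2.1
    rw [e2]
    exact ⟨h1.1.trans h2.1, lt_of_lt_of_le h1.2.1 h2.1.length_le⟩
  have g2 : ∀ i, (s (2 * i)).2.2.1 <+: (s (2 * (i + 1))).2.2.1 ∧
      (s (2 * i)).2.2.1.length < (s (2 * (i + 1))).2.2.1.length := by
    intro i
    have h1 := (hs (2 * i)).2.2.1
    have h2 := (hs (2 * i + 1)).1
    rw [e2]
    exact ⟨h1.1.trans h2.1, lt_of_le_of_lt h1.1.length_le h2.2.1⟩
  have g3 : ∀ i, (s (2 * i)).2.2.2 <+: (s (2 * (i + 1))).2.2.2 ∧
      (s (2 * i)).2.2.2.length < (s (2 * (i + 1))).2.2.2.length := by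
    intro i
    have h1 := (hs (2 * i)).2.2.2.1
    have h2 := (hs (2 * i + 1)).2.1
    rw [e2]
    exact ⟨h1.1.trans h2.1, lt_of_le_of_lt h1.1.length_le h2.2.1⟩
  have m0 : ∀ i, Ext (s (2 * i)).1 (α 0) :=
    fun i => Ext_lim (cc 0) (fun i => (g0 i).1) (fun i => (g0 i).2) i
  have m1 : ∀ i, Ext (s (2 * i)).2.1 (α 1) :=
    fun i => Ext_lim (cc 1) (fun i => (g1 i).1) (fun i => (g1 i).2) i
  have m2 : ∀ i, Ext (s (2 * i)).2.2.1 (α 2) :=
    fun i => Ext_lim (cc 2) (fun i => (g2 i).1) (fun i => (g2 i).2) i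
  have m3 : ∀ i, Ext (s (2 * i)).2.2.2 (α 3) :=
    fun i => Ext_lim (cc 3) (fun i => (g3 i).1) (fun i => (g3 i).2) i
  -- membership at every phase
  have ma : ∀ i, Ext (s i).1 (α (2 * (i % 2))) := by
    intro i
    rcases Nat.mod_two_eq_zero_or_one i with h | h
    · rw [h]
      have h1 := m0 (i / 2)
      have h2 : 2 * (i / 2) = i := by omega
      rw [h2] at h1
      exact h1
    · rw [h]
      have h1 := m2 (i / 2 + 1)
      have h2 : 2 * (i / 2 + 1) = i + 1 := by omega
      rw [h2] at h1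
      exact Ext_mono (hs i).1.1 h1
  have mb : ∀ i, Ext (s i).2.1 (α (2 * (i % 2) + 1)) := by
    intro i
    rcases Nat.mod_two_eq_zero_or_one i with h | h
    · rw [h]
      have h1 := m1 (i / 2)
      have h2 : 2 * (i / 2) = i := by omega
      rw [h2] at h1
      exact h1
    · rw [h]
      have h1 := m3 (i / 2 + 1)
      have h2 : 2 * (i / 2 + 1) = i + 1 := by omega
      rw [h2] at h1
      exact Ext_mono (hs i).2.1.1 h1
  have mc : ∀ i, Ext (s i).2.2.1 (α (2 * ((i + 1) % 2))) := by
    intro i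
    rcases Nat.mod_two_eq_zero_or_one i with h | h
    · have h3 : (i + 1) % 2 = 1 := by omega
      rw [h3]
      have h1 := m2 (i / 2)
      have h2 : 2 * (i / 2) = i := by omega
      rw [h2] at h1
      exact h1
    · have h3 : (i + 1) % 2 = 0 := by omega
      rw [h3]
      have h1 := m0 (i / 2 + 1)
      have h2 : 2 * (i / 2 + 1) = i + 1 := by omega
      rw [h2] at h1
      exact Ext_mono (hs i).2.2.1.1 h1
  have md : ∀ i, Ext (s i).2.2.2 (α (2 * ((i + 1) % 2) + 1)) := by
    intro i
    rcases Nat.mod_two_eq_zero_or_one i with h | h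
    · have h3 : (i + 1) % 2 = 1 := by omega
      rw [h3]
      have h1 := m3 (i / 2)
      have h2 : 2 * (i / 2) = i := by omega
      rw [h2] at h1
      exact h1
    · have h3 : (i + 1) % 2 = 0 := by omega
      rw [h3]
      have h1 := m1 (i / 2 + 1)
      have h2 : 2 * (i / 2 + 1) = i + 1 := by omega
      rw [h2] at h1
      exact Ext_mono (hs i).2.2.2.1.1 h1
  have hmod : ∀ i, (i + 1 + 1) % 2 = i % 2 := fun i => by omega
  refine ⟨α, ?_, ?_⟩
  · -- computability
    intro j c hpc hzc
    have hs' : CI {orc c} (fun i => encode (s i)) := by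
      have h1 : CI {orc c} (fun q : ℕ × ℕ × ℕ => t (Nat.pair q.2.2 (z q.2.1).toNat)) :=
        CI.comp (ci_tr hp hpc) (CI.npair (CI.of_computable (Computable.snd.comp Computable.snd))
          (ci_orc_comp hzc (CI.of_computable (Computable.fst.comp Computable.snd))))
      have h2 := CI.sub (CI.natRec (CI.const (O := {orc c}) (α := ℕ) (encode (s 0))) h1)
        (CI.of_computable Computable.id)
      refine h2.congr fun n => ?_
      show encode (s n) = Nat.rec (encode (s 0)) (fun y ih => t (Nat.pair ih (z y).toNat)) n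
      induction n with
      | zero => rfl
      | succ n ih =>
        show encode (T (s n) (z n)) = t (Nat.pair (Nat.rec (encode (s 0))
          (fun y ih => t (Nat.pair ih (z y).toNat)) n) (z n).toNat)
        rw [← ih, ht]
    have hget : ∀ g : St → List Bool, Computable g →
        CI {orc c} (fun n => (((g (s (2 * (n + 1))))[n]?).getD false).toNat) := by
      intro g hg
      have h1 : Computable₂ fun (m n : ℕ) =>
          (((g ((decode m : Option St).getD default))[n]?).getD false).toNat := by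
        have h2 : Computable fun q : ℕ × ℕ => g ((decode q.1 : Option St).getD default) :=
          hg.comp (Computable.option_getD (Computable.decode.comp Computable.fst)
            (Computable.const default))
        have h3 : Computable fun q : ℕ × ℕ =>
            ((g ((decode q.1 : Option St).getD default))[q.2]?).getD false :=
          Computable.option_getD (Computable.list_getElem?.comp h2 Computable.snd)
            (Computable.const false)
        exact (Primrec.dom_finite Bool.toNat).to_comp.comp h3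
      have h4 : CI {orc c} (fun n : ℕ => encode (s (2 * (n + 1)))) :=
        CI.comp hs' (CI.mul (CI.const 2) (CI.add (CI.of_computable Computable.id) (CI.const 1)))
      refine (CI.comp₂ (h := fun m n =>
        (((g ((decode m : Option St).getD default))[n]?).getD false).toNat) h1 h4
        (CI.of_computable Computable.id)).congr fun n => ?_
      simp only [encodek, Option.getD_some, id]
    rw [tr_iff_ci]
    by_cases h0 : j = 0
    · refine (hget (fun S => S.1) Computable.fst).congr fun n => ?_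
      simp only [α, lim, cc, h0, if_true]
    by_cases h1 : j = 1
    · refine (hget (fun S => S.2.1) (Computable.fst.comp Computable.snd)).congr fun n => ?_
      simp only [α, lim, cc, h1, if_true]
      rfl
    by_cases h2 : j = 2
    · refine (hget (fun S => S.2.2.1)
        (Computable.fst.comp (Computable.snd.comp Computable.snd))).congr fun n => ?_
      simp only [α, lim, cc, h2, if_true]
      rfl
    · refine (hget (fun S => S.2.2.2)
        (Computable.snd.comp (Computable.snd.comp Computable.snd))).congr fun n => ?_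
      simp only [α, lim, cc, if_neg h0, if_neg h1, if_neg h2]
  · -- decoding
    refine decode_lemma x (fun j => ψ (α j)) z (fun i => ψ (ext (s i).1))
      (fun i => ψ (ext (s i).2.1)) (fun i => u (s i) (z i)) (fun i => v (s i) (z i))
      (hx _) (hx _) ?_ ?_ ?_ ?_ ?_
    · intro i
      have h1 := mc (i + 1)
      rw [hmod i] at h1
      exact (hs i).1.2.2 _ h1
    · intro i
      have h1 := md (i + 1)
      rw [hmod i] at h1
      exact (hs i).2.1.2.2 _ h1
    · intro i
      exact (hs i).2.2.2.2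
    · intro i
      obtain ⟨e, he, h⟩ := (hs i).2.2.1.2
      exact ⟨e, h _ (ma (i + 1)), he⟩
    · intro i
      obtain ⟨e, he, h⟩ := (hs i).2.2.2.1.2
      exact ⟨e, h _ (mb (i + 1)), he⟩

end Pool.Agent.Mart
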